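import Pool.Agent.Work.MP_e5a0e3_pr.Hedge.Main
import Pool.Agent.Work.MP_e5a0e3_pr.D4.K

namespace Pool.Agent.Work.MP_e5a0e3_pr.D4

section

/-! Vectors of natural numbers written as the digits of one natural number (as in the file
`Lanes` of `MP_82fd4a_nt`). -/

open Finset

/-- the number with the digits `f 0, …, f (n - 1)` in base `2 ^ W` -/
def pack (W n : ℕ) (f : ℕ → ℕ) : ℕ := ∑ i ∈ range n, f i * 2 ^ (W * i)

variable {W n : ℕ} {f g : ℕ → ℕ}

@[simp] theorem pack_zero (W : ℕ) (f : ℕ → ℕ) : pack W 0 f = 0 := by simp [pack]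

theorem pack_one (W : ℕ) (f : ℕ → ℕ) : pack W 1 f = f 0 := by simp [pack]

theorem pack_congr (h : ∀ i < n, f i = g i) : pack W n f = pack W n g :=
  sum_congr rfl fun i hi => by rw [h i (mem_range.1 hi)]

theorem pack_succ (W n : ℕ) (f : ℕ → ℕ) :
    pack W (n + 1) f = 2 ^ W * pack W n (fun i => f (i + 1)) + f 0 := by
  rw [pack, sum_range_succ', pack, mul_sum]
  simp only [Nat.mul_zero, pow_zero, mul_one, add_left_inj]
  exact sum_congr rfl fun i _ => by rw [Nat.mul_succ, pow_add]; ring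

theorem pack_succ' (W n : ℕ) (f : ℕ → ℕ) :
    pack W (n + 1) f = pack W n f + f n * 2 ^ (W * n) := by
  rw [pack, sum_range_succ, pack]

theorem pack_const_zero (W n : ℕ) : pack W n (fun _ => 0) = 0 := by simp [pack]

theorem pack_add (W n : ℕ) (f g : ℕ → ℕ) :
    pack W n f + pack W n g = pack W n (fun i => f i + g i) := by
  simp only [pack, ← sum_add_distrib, add_mul]

theorem pack_smul (W n c : ℕ) (f : ℕ → ℕ) : c * pack W n f = pack W n (fun i => c * f i) := by
  simp only [pack, mul_sum, mul_assoc]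

theorem pack_sub (h : ∀ i < n, g i ≤ f i) :
    pack W n f - pack W n g = pack W n (fun i => f i - g i) := by
  have : pack W n f = pack W n (fun i => f i - g i) + pack W n g := by
    rw [pack_add]; exact pack_congr fun i hi => by have := h i hi; omega
  omega

theorem pack_append (W n m : ℕ) (f g : ℕ → ℕ) :
    pack W n f + pack W m g <<< (W * n) =
      pack W (n + m) (fun i => if i < n then f i else g (i - n)) := by
  induction m with
  | zero =>
    simp only [pack_zero, Nat.zero_shiftLeft, add_zero]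
    exact pack_congr fun i hi => by rw [if_pos hi]
  | succ m ih =>
    rw [← add_assoc, pack_succ', pack_succ', ← ih, if_neg (by omega), Nat.add_sub_cancel_left,
      Nat.shiftLeft_eq, Nat.shiftLeft_eq, Nat.mul_add, pow_add]
    ring

theorem pack_lt (h : ∀ i < n, f i < 2 ^ W) : pack W n f < 2 ^ (W * n) := by
  induction n with
  | zero => simp
  | succ n ih =>
    have h1 := ih fun i hi => h i (by omega)
    have h2 := h n (by omega)
    rw [pack_succ', Nat.mul_succ, pow_add]
    calc pack W n f + f n * 2 ^ (W * n) < (f n + 1) * 2 ^ (W * n) := by linarith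
      _ ≤ 2 ^ W * 2 ^ (W * n) := Nat.mul_le_mul_right _ h2
      _ = _ := mul_comm _ _

/-- drop the first digits -/
theorem pack_shiftRight (k : ℕ) (h : ∀ i < n, f i < 2 ^ W) :
    pack W n f >>> (W * k) = pack W (n - k) (fun i => f (i + k)) := by
  rcases Nat.lt_or_ge n k with hk | hk
  · rw [Nat.sub_eq_zero_of_le hk.le, pack_zero, Nat.shiftRight_eq_div_pow]
    exact Nat.div_eq_of_lt ((pack_lt h).trans_le
      (Nat.pow_le_pow_right (by norm_num) (Nat.mul_le_mul_left _ hk.le)))
  · obtain ⟨m, rfl⟩ := Nat.exists_eq_add_of_le hk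
    have e : pack W (k + m) f = pack W k f + pack W m (fun i => f (i + k)) <<< (W * k) := by
      rw [pack_append]
      exact pack_congr fun i _ => by
        split_ifs with h1
        · rfl
        · rw [Nat.sub_add_cancel (by omega)]
    rw [e, Nat.add_sub_cancel_left, Nat.shiftRight_eq_div_pow, Nat.shiftLeft_eq,
      Nat.add_mul_div_right _ _ (by positivity),
      Nat.div_eq_of_lt (pack_lt fun i hi => h i (by omega)), zero_add]

/-- keep the first digits -/
theorem pack_mod (k : ℕ) (hk : k ≤ n) (h : ∀ i < n, f i < 2 ^ W) :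
    pack W n f % 2 ^ (W * k) = pack W k f := by
  obtain ⟨m, rfl⟩ := Nat.exists_eq_add_of_le hk
  have e : pack W (k + m) f = pack W k f + pack W m (fun i => f (i + k)) <<< (W * k) := by
    rw [pack_append]
    exact pack_congr fun i _ => by
      split_ifs with h1
      · rfl
      · rw [Nat.sub_add_cancel (by omega)]
  rw [e, Nat.shiftLeft_eq, Nat.add_mul_mod_self_right,
    Nat.mod_eq_of_lt (pack_lt fun i hi => h i (by omega))]

/-- read a digit -/
theorem pack_lane {i : ℕ} (hi : i < n) (h : ∀ i < n, f i < 2 ^ W) :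
    pack W n f >>> (W * i) % 2 ^ W = f i := by
  rw [pack_shiftRight i h]
  have := pack_mod (W := W) (n := n - i) (f := fun j => f (j + i)) 1 (by omega)
    fun j hj => h _ (by omega)
  rw [mul_one] at this
  rw [this, pack_one, zero_add]

theorem pack_inj (hf : ∀ i < n, f i < 2 ^ W) (hg : ∀ i < n, g i < 2 ^ W)
    (h : pack W n f = pack W n g) : ∀ i < n, f i = g i := fun i hi => by
  rw [← pack_lane hi hf, h, pack_lane hi hg]

theorem land_step {a b : ℕ} (x y : ℕ) (ha : a < 2 ^ W) (hb : b < 2 ^ W) :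
    (2 ^ W * x + a) &&& (2 ^ W * y + b) = 2 ^ W * (x &&& y) + (a &&& b) := by
  have hab : a &&& b < 2 ^ W := lt_of_le_of_lt Nat.and_le_left ha
  refine Nat.eq_of_testBit_eq fun j => ?_
  rw [Nat.testBit_and, Nat.testBit_two_pow_mul_add _ ha, Nat.testBit_two_pow_mul_add _ hb,
    Nat.testBit_two_pow_mul_add _ hab]
  split_ifs <;> rw [Nat.testBit_and]

theorem pack_land (hf : ∀ i < n, f i < 2 ^ W) (hg : ∀ i < n, g i < 2 ^ W) :
    pack W n f &&& pack W n g = pack W n (fun i => f i &&& g i) := by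
  induction n generalizing f g with
  | zero => simp
  | succ n ih =>
    rw [pack_succ, pack_succ, pack_succ, land_step _ _ (hf 0 (by omega)) (hg 0 (by omega)),
      ih (fun i hi => hf _ (by omega)) fun i hi => hg _ (by omega)]

end

section

/-! Short self-avoiding walks in `ℤ^3`, their symmetries and weights. -/

open Finset

/-- Points of `ℤ^3`. -/
abbrev P := ℤ × ℤ × ℤ

/-- The six unit steps. -/
def vec : Fin 6 → P := ![(1, 0, 0), (-1, 0, 0), (0, 1, 0), (0, -1, 0), (0, 0, 1), (0, 0, -1)]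

/-- The displacement of a walk. -/
def en (l : List (Fin 6)) : P := (l.map vec).sum

@[simp] lemma en_nil : en [] = 0 := rfl

@[simp] lemma en_cons (d : Fin 6) (l : List (Fin 6)) : en (d :: l) = vec d + en l := by simp [en]

/-- The vertices of the walk `l` from `p`. -/
def vs : P → List (Fin 6) → List P
  | p, [] => [p]
  | p, d :: l => p :: vs (p + vec d) l

/-- The edges of the walk `l` from `p`. -/
def adj : P → List (Fin 6) → P → P → Prop
  | _, [], _, _ => False
  | p, d :: l, x, y => (x = p ∧ y = p + vec d) ∨ (y = p ∧ x = p + vec d) ∨ adj (p + vec d) l x y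

/-- The walks of length at most `f` from `p`; for `b = true` only the self-avoiding ones that
avoid `vis`. -/
def fam (b : Bool) : ℕ → List P → P → Finset (List (Fin 6))
  | 0, _, _ => {[]}
  | f + 1, vis, p => insert [] (((univ.filter fun d => ¬(b = true ∧ p + vec d ∈ vis)).sigma
      fun d => fam b f (p :: vis) (p + vec d)).image fun x => x.1 :: x.2)

lemma fam_zero (b : Bool) (vis : List P) (p : P) : fam b 0 vis p = {[]} := rfl

lemma sum_fam {R : Type*} [AddCommMonoid R] (b : Bool) (f : ℕ) (vis : List P) (p : P)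
    (Φ : List (Fin 6) → R) : ∑ l ∈ fam b (f + 1) vis p, Φ l = Φ [] + ∑ d,
      if b = true ∧ p + vec d ∈ vis then 0 else ∑ l ∈ fam b f (p :: vis) (p + vec d), Φ (d :: l) := by
  rw [fam, sum_insert (by simp), sum_image, sum_sigma, sum_filter]
  · simp only [ite_not]
  · rintro ⟨d, l⟩ - ⟨e, m⟩ - h
    obtain ⟨rfl, rfl⟩ := List.cons.inj h
    rfl

lemma mem_fam {b : Bool} {f : ℕ} {vis : List P} {p : P} {l : List (Fin 6)}
    (h : l ∈ fam b (f + 1) vis p) : l = [] ∨ ∃ d m, l = d :: m ∧ ¬(b = true ∧ p + vec d ∈ vis) ∧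
      m ∈ fam b f (p :: vis) (p + vec d) := by
  rw [fam, mem_insert, mem_image] at h
  obtain h | ⟨⟨d, m⟩, h, rfl⟩ := h
  · exact Or.inl h
  · exact Or.inr ⟨d, m, rfl, (mem_filter.1 (mem_sigma.1 h).1).2, (mem_sigma.1 h).2⟩

lemma fam_len {b : Bool} {f : ℕ} {vis : List P} {p : P} {l : List (Fin 6)}
    (h : l ∈ fam b f vis p) : l.length ≤ f := by
  induction f generalizing vis p l with
  | zero => rw [mem_singleton.1 h]; rfl
  | succ f ih =>
    obtain rfl | ⟨d, m, rfl, -, h⟩ := mem_fam h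
    · simp
    · exact Nat.succ_le_succ (ih h)

lemma vec_ne (p : P) (d : Fin 6) : p + vec d ≠ p := by
  rw [Ne, add_eq_left]
  revert d
  decide

lemma fam_nodup {f : ℕ} {vis : List P} {p : P} {l : List (Fin 6)} (h : l ∈ fam true f vis p)
    (hp : p ∉ vis) : (vs p l).Nodup ∧ ∀ x ∈ vs p l, x ∉ vis := by
  induction f generalizing vis p l with
  | zero => rw [mem_singleton.1 h]; simpa [vs]
  | succ f ih =>
    obtain rfl | ⟨d, m, rfl, h1, h⟩ := mem_fam h
    · simpa [vs]
    · obtain ⟨h2, h3⟩ := ih h (by simpa [-add_eq_left, vec_ne] using h1)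
      simp only [vs, List.nodup_cons, List.mem_cons, not_or, forall_eq_or_imp] at h3 ⊢
      exact ⟨⟨fun h => (h3 p h).1 rfl, h2⟩, hp, fun x hx => (h3 x hx).2⟩

/-- The `ℓ¹` norm. -/
def n1 (p : P) : ℕ := p.1.natAbs + p.2.1.natAbs + p.2.2.natAbs

lemma n1_add (p q : P) : n1 (p + q) ≤ n1 p + n1 q := by
  simp only [n1, Prod.fst_add, Prod.snd_add]
  omega

lemma n1_sub (p q : P) : n1 (p - q) ≤ n1 p + n1 q := by
  simp only [n1, Prod.fst_sub, Prod.snd_sub]
  omega

lemma n1_vec (d : Fin 6) : n1 (vec d) = 1 := by revert d; decide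

lemma n1_en (l : List (Fin 6)) : n1 (en l) ≤ l.length := by
  induction l with
  | nil => rfl
  | cons d l ih => have := n1_add (vec d) (en l); rw [n1_vec] at this; simp only [en_cons, List.length_cons]; omega

lemma n1_vs {p x : P} {l : List (Fin 6)} (h : x ∈ vs p l) :
    n1 (x - p) + n1 (p + en l - x) ≤ l.length := by
  induction l generalizing p with
  | nil => simp only [vs, List.mem_singleton] at h; simp [h, n1]
  | cons d l ih =>
    rcases List.mem_cons.1 h with rfl | h
    · simpa [n1] using n1_en (d :: l)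
    · have h1 := ih h
      have h2 := n1_add (x - (p + vec d)) (vec d)
      rw [n1_vec, show x - (p + vec d) + vec d = x - p by abel] at h2
      rw [en_cons, ← add_assoc, List.length_cons]
      omega

lemma head_mem (p : P) (l : List (Fin 6)) : p ∈ vs p l := by cases l <;> simp [vs]

lemma adj_mem {p x y : P} {l : List (Fin 6)} (h : adj p l x y) : x ∈ vs p l ∧ y ∈ vs p l := by
  induction l generalizing p with
  | nil => exact h.elim
  | cons d l ih =>
    simp only [vs, List.mem_cons]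
    obtain ⟨rfl, rfl⟩ | ⟨rfl, rfl⟩ | h := h
    · exact ⟨Or.inl rfl, Or.inr (head_mem _ _)⟩
    · exact ⟨Or.inr (head_mem _ _), Or.inl rfl⟩
    · exact ⟨Or.inr (ih h).1, Or.inr (ih h).2⟩

/-- The product of vertex weights and edge weights along a walk. -/
def wt (v : P → ℝ) (e : P → P → ℝ) : P → List (Fin 6) → ℝ
  | p, [] => v p
  | p, d :: l => v p * e p (p + vec d) * wt v e (p + vec d) l

open Classical in
/-- The weight of the walk `B` from `p` against the walk `A` from `s`. -/
noncomputable def Wc (s : P) (A : List (Fin 6)) : P → List (Fin 6) → ℝ :=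
  wt (fun x => if x ∈ vs s A then 14 / 27 else 1) fun x y => if adj s A x y then 9 else 1

lemma Wc_nil (s : P) (A : List (Fin 6)) (p : P) :
    Wc s A p [] = if p ∈ vs s A then 14 / 27 else 1 := by
  simp [Wc, wt]

open Classical in
lemma Wc_cons (s : P) (A : List (Fin 6)) (p : P) (d : Fin 6) (l : List (Fin 6)) :
    Wc s A p (d :: l) = (if p ∈ vs s A then 14 / 27 else 1) *
      (if adj s A p (p + vec d) then 9 else 1) * Wc s A (p + vec d) l := by
  simp [Wc, wt]

lemma Wc_nonneg (s : P) (A : List (Fin 6)) (p : P) (l : List (Fin 6)) : 0 ≤ Wc s A p l := by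
  induction l generalizing p with
  | nil => rw [Wc_nil]; positivity
  | cons d l ih => rw [Wc_cons]; have := ih (p + vec d); positivity

lemma Wc_one {s p : P} {A l : List (Fin 6)} (h : ∀ x ∈ vs p l, x ∉ vs s A) : Wc s A p l = 1 := by
  induction l generalizing p with
  | nil => rw [Wc_nil, if_neg (h p (head_mem _ _))]
  | cons d l ih =>
    have h1 := h p (head_mem _ _)
    rw [Wc_cons, if_neg h1, if_neg fun h2 => h1 (adj_mem h2).1,
      ih fun x hx => h x (List.mem_cons_of_mem _ hx)]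
    simp

lemma Wc_near {s : P} {A B : List (Fin 6)} (hA : A.length ≤ 5) (hB : B.length ≤ 5)
    (h : Wc s A 0 B ≠ 1) : n1 s ≤ 10 ∧ n1 (s + en A - en B) ≤ 10 := by
  obtain ⟨x, h1, h2⟩ : ∃ x ∈ vs 0 B, x ∈ vs s A := by
    by_contra h1
    exact h (Wc_one fun x hx h2 => h1 ⟨x, hx, h2⟩)
  have h3 := n1_vs h1
  have h4 := n1_vs h2
  have h5 := n1_sub (x - 0) (x - s)
  have h6 := n1_sub (s + en A - x) (0 + en B - x)
  rw [show x - 0 - (x - s) = s by abel] at h5
  rw [show s + en A - x - (0 + en B - x) = s + en A - en B by abel] at h6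
  omega

/-- A symmetry of the lattice with its action on the steps. -/
structure Sy (g : P → P) (σ : Fin 6 → Fin 6) : Prop where
  inj : Function.Injective g
  bij : Function.Bijective σ
  step : ∀ x d, g (x + vec d) = g x + vec (σ d)

section sy

variable {g : P → P} {σ : Fin 6 → Fin 6} (h : Sy g σ)
include h

lemma Sy.en (x : P) (l : List (Fin 6)) : g (x + en l) = g x + en (l.map σ) := by
  induction l generalizing x with
  | nil => simp
  | cons d l ih => rw [en_cons, ← add_assoc, ih, h.step, List.map_cons, en_cons, add_assoc]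

lemma Sy.en' (x : P) (l : List (Fin 6)) : g (x - D4.en l) = g x - D4.en (l.map σ) := by
  rw [eq_sub_iff_add_eq, ← h.en, sub_add_cancel]

lemma Sy.vs (p x : P) (l : List (Fin 6)) : g x ∈ vs (g p) (l.map σ) ↔ x ∈ vs p l := by
  induction l generalizing p with
  | nil => simp [D4.vs, h.inj.eq_iff]
  | cons d l ih => simp only [List.map_cons, D4.vs, List.mem_cons, h.inj.eq_iff, ← h.step, ih]

lemma Sy.adj (p x y : P) (l : List (Fin 6)) : adj (g p) (l.map σ) (g x) (g y) ↔ adj p l x y := by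
  induction l generalizing p with
  | nil => rfl
  | cons d l ih => simp only [List.map_cons, D4.adj, ← h.step, h.inj.eq_iff, ih]

lemma Sy.Wc (s p : P) (A l : List (Fin 6)) :
    Wc (g s) (A.map σ) (g p) (l.map σ) = Wc s A p l := by
  induction l generalizing p with
  | nil => simp only [List.map_nil, Wc_nil, h.vs]
  | cons d l ih =>
    rw [List.map_cons, Wc_cons, Wc_cons, ← h.step, ih]
    simp only [h.vs]
    rw [h.adj]

lemma Sy.sum (b : Bool) (f : ℕ) (vis : List P) (p : P) (Φ : List (Fin 6) → ℝ) :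
    ∑ l ∈ fam b f (vis.map g) (g p), Φ l = ∑ l ∈ fam b f vis p, Φ (l.map σ) := by
  induction f generalizing vis p Φ with
  | zero => simp [fam]
  | succ f ih =>
    rw [sum_fam, sum_fam, ← h.bij.sum_comp]
    simp only [← h.step, List.mem_map_of_injective h.inj, ← List.map_cons, ih]
    rfl

end sy

attribute [irreducible] fam

/-- The blocks. -/
def FF : Finset (List (Fin 6)) := fam true 5 [] 0

/-- The integer weight of a block. -/
def ww (b : List (Fin 6)) : ℕ := 5 ^ (5 - b.length)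

lemma Wc_shift (s p : P) (A B : List (Fin 6)) : Wc s A p B = Wc (s - p) A 0 B := by
  have h : Sy (· + p) id := ⟨add_left_injective p, Function.bijective_id, fun x d => by
    simp only [id]; abel⟩
  simpa using h.Wc (s - p) 0 A B

lemma fib {γ R : Type*} [Semiring R] {s : Finset γ} (w : γ → ℕ) {c : γ → ℕ} {n : ℕ} (Ψ : ℕ → R)
    (h : ∀ a ∈ s, c a ∈ range n) : ∑ a ∈ s, w a * Ψ (c a) =
      ∑ k ∈ range n, (∑ a ∈ s with c a = k, w a : ℕ) * Ψ k := by
  rw [← sum_fiberwise_of_maps_to h]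
  refine sum_congr rfl fun k _ => ?_
  rw [Nat.cast_sum, sum_mul]
  exact sum_congr rfl fun a ha => by rw [(mem_filter.1 ha).2]

lemma kron {α β : Type*} {s : Finset α} {t : Finset β} {w c : α → ℕ} {w' c' : β → ℕ} {W : ℕ}
    (hw : ∑ a ∈ s, w a < 2 ^ W) (hw' : ∑ a ∈ t, w' a < 2 ^ W)
    (h : ∑ a ∈ s, w a * 2 ^ (W * c a) = ∑ a ∈ t, w' a * 2 ^ (W * c' a)) (Φ : ℕ → ℝ) :
    ∑ a ∈ s, w a * Φ (c a) = ∑ a ∈ t, w' a * Φ (c' a) := by
  obtain ⟨n, h1, h2⟩ : ∃ n, (∀ a ∈ s, c a ∈ range n) ∧ ∀ a ∈ t, c' a ∈ range n :=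
    ⟨s.sup c + t.sup c' + 1, fun a ha => mem_range.2 (by have := le_sup (f := c) ha; omega),
      fun a ha => mem_range.2 (by have := le_sup (f := c') ha; omega)⟩
  have h3 := (fib w (fun k => 2 ^ (W * k)) h1).symm.trans (h.trans (fib w' (fun k => 2 ^ (W * k)) h2))
  have h4 := pack_inj (fun k _ => (sum_le_sum_of_subset (filter_subset _ _)).trans_lt hw)
    (fun k _ => (sum_le_sum_of_subset (filter_subset _ _)).trans_lt hw') h3
  rw [fib w Φ h1, fib w' Φ h2]
  exact sum_congr rfl fun k hk => by rw [h4 k (mem_range.1 hk)]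

end

section

/-! Second moment over layered paths in `ℤ^4`. -/

open MeasureTheory ProbabilityTheory Finset Filter Topology
open Pool.Agent.Work.MP_e5a0e3_pr.Hedge

lemma second_moment_w {Ω ι : Type*} [MeasurableSpace Ω] (μ : Measure Ω) [IsProbabilityMeasure μ]
    (s : Finset ι) (π : ι → ℝ) (hπ : ∀ i, 0 ≤ π i) (h1 : ∑ i ∈ s, π i = 1) (A : ι → Set Ω)
    (hA : ∀ i, MeasurableSet (A i)) (hpos : ∀ i ∈ s, 0 < μ.real (A i)) (w : ι → ι → ℝ)
    (hw : ∀ i ∈ s, ∀ j ∈ s, μ.real (A i ∩ A j) ≤ μ.real (A i) * μ.real (A j) * w i j) {K : ℝ}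
    (hK : 0 < K) (hsum : ∑ i ∈ s, ∑ j ∈ s, π i * π j * w i j ≤ K) :
    1 / K ≤ μ.real (⋃ i ∈ s, A i) := by
  classical
  set g : ι → ℝ := fun i => π i / (K * μ.real (A i)) with hg
  have hg0 : ∀ i, 0 ≤ g i := fun i => div_nonneg (hπ i) (mul_nonneg hK.le measureReal_nonneg)
  have hU : MeasurableSet (⋃ i ∈ s, A i) := s.measurableSet_biUnion fun i _ => hA i
  have hint : ∀ (B : Set Ω) (r : ℝ), MeasurableSet B → Integrable (B.indicator fun _ => r) μ :=
    fun B r hB => (integrable_const r).indicator hB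
  have pt : ∀ ω, 2 * ∑ i ∈ s, (A i).indicator (fun _ => g i) ω -
      ∑ i ∈ s, ∑ j ∈ s, (A i ∩ A j).indicator (fun _ => g i * g j) ω ≤
        (⋃ i ∈ s, A i).indicator (fun _ => (1 : ℝ)) ω := by
    intro ω
    have e : ∑ i ∈ s, ∑ j ∈ s, (A i ∩ A j).indicator (fun _ => g i * g j) ω =
        (∑ i ∈ s, (A i).indicator (fun _ => g i) ω) ^ 2 := by
      rw [sq, sum_mul_sum]
      refine sum_congr rfl fun i _ => sum_congr rfl fun j _ => ?_
      by_cases hi : ω ∈ A i <;> by_cases hj : ω ∈ A j <;> simp [Set.indicator, hi, hj]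
    rw [e]
    by_cases hω : ω ∈ ⋃ i ∈ s, A i
    · rw [Set.indicator_of_mem hω]
      nlinarith [sq_nonneg (∑ i ∈ s, (A i).indicator (fun _ => g i) ω - 1)]
    · rw [Set.indicator_of_notMem hω, sum_eq_zero fun i hi =>
        Set.indicator_of_notMem (fun h => hω (Set.mem_biUnion hi h)) _]
      simp
  have i1 : Integrable (fun ω => ∑ i ∈ s, (A i).indicator (fun _ => g i) ω) μ :=
    integrable_finsetSum _ fun i _ => hint _ _ (hA i)
  have i2' : ∀ i, Integrable (fun ω => ∑ j ∈ s, (A i ∩ A j).indicator (fun _ => g i * g j) ω) μ :=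
    fun i => integrable_finsetSum _ fun j _ => hint _ _ ((hA i).inter (hA j))
  have i2 : Integrable (fun ω => ∑ i ∈ s, ∑ j ∈ s,
      (A i ∩ A j).indicator (fun _ => g i * g j) ω) μ := integrable_finsetSum _ fun i _ => i2' i
  have hmono := integral_mono ((i1.const_mul 2).sub i2) (hint _ 1 hU) pt
  simp only [Pi.sub_apply] at hmono
  rw [integral_sub (i1.const_mul 2) i2, integral_const_mul,
    integral_finsetSum _ (fun i _ => hint _ _ (hA i)),
    integral_finsetSum _ (fun i _ => i2' i), integral_indicator_const _ hU] at hmono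
  have e1 : ∑ i ∈ s, ∫ ω, (A i).indicator (fun _ => g i) ω ∂μ = 1 / K := by
    rw [← h1, sum_div]
    refine sum_congr rfl fun i hi => ?_
    rw [integral_indicator_const _ (hA i)]
    have := hpos i hi
    simp only [hg, smul_eq_mul]; field_simp
  have e2 : ∑ i ∈ s, ∫ ω, ∑ j ∈ s, (A i ∩ A j).indicator (fun _ => g i * g j) ω ∂μ ≤ 1 / K := by
    have : ∀ i ∈ s, ∫ ω, ∑ j ∈ s, (A i ∩ A j).indicator (fun _ => g i * g j) ω ∂μ ≤
        ∑ j ∈ s, π i * π j * w i j / K ^ 2 := by
      intro i hi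
      rw [integral_finsetSum _ (fun j _ => hint _ _ ((hA i).inter (hA j)))]
      refine sum_le_sum fun j hj => ?_
      rw [integral_indicator_const _ ((hA i).inter (hA j)), smul_eq_mul]
      have hi' := hpos i hi
      have hj' := hpos j hj
      calc μ.real (A i ∩ A j) * (g i * g j) ≤ μ.real (A i) * μ.real (A j) * w i j * (g i * g j) :=
            mul_le_mul_of_nonneg_right (hw i hi j hj) (mul_nonneg (hg0 i) (hg0 j))
        _ = _ := by simp only [hg]; field_simp
    calc _ ≤ ∑ i ∈ s, ∑ j ∈ s, π i * π j * w i j / K ^ 2 := sum_le_sum this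
      _ = (∑ i ∈ s, ∑ j ∈ s, π i * π j * w i j) / K ^ 2 := by simp only [sum_div]
      _ ≤ K / K ^ 2 := div_le_div_of_nonneg_right hsum (by positivity)
      _ = 1 / K := by field_simp
  rw [e1, smul_eq_mul, mul_one] at hmono
  linarith

/-- The point `p` of layer `t`. -/
def emb (t : ℤ) (p : P) : Fin 4 → ℤ := ![t, p.1, p.2.1, p.2.2]

/-- The projection to a layer. -/
def tl (x : Fin 4 → ℤ) : P := (x 1, x 2, x 3)

@[simp] lemma emb_zero (t : ℤ) (p : P) : emb t p 0 = t := rfl

@[simp] lemma tl_emb (t : ℤ) (p : P) : tl (emb t p) = p := rfl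

lemma emb_tl (x : Fin 4 → ℤ) : emb (x 0) (tl x) = x := by
  ext i
  fin_cases i <;> rfl

@[simp] lemma emb_inj {t u : ℤ} {p q : P} : emb t p = emb u q ↔ t = u ∧ p = q :=
  ⟨fun h => ⟨congrFun h 0, congrArg tl h⟩, fun h => by rw [h.1, h.2]⟩

lemma nb_symm {x y : Fin 4 → ℤ} (h : y ∈ nb x) : x ∈ nb y := by
  obtain ⟨i, rfl | rfl⟩ := mem_nb.1 h
  · exact mem_nb.2 ⟨i, Or.inr (by simp)⟩
  · exact mem_nb.2 ⟨i, Or.inl (by simp)⟩

lemma nb_up (t : ℤ) (p : P) : emb (t + 1) p ∈ nb (emb t p) :=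
  mem_nb.2 ⟨0, Or.inl (by ext i; fin_cases i <;> simp [emb])⟩

lemma nb_vec (t : ℤ) (p : P) (d : Fin 6) : emb t (p + vec d) ∈ nb (emb t p) := by
  refine mem_nb.2 ?_
  fin_cases d
  exacts [⟨1, Or.inl (by ext i; fin_cases i <;> simp [emb, vec])⟩,
    ⟨1, Or.inr (by ext i; fin_cases i <;> simp [emb, vec, sub_eq_add_neg])⟩,
    ⟨2, Or.inl (by ext i; fin_cases i <;> simp [emb, vec])⟩,
    ⟨2, Or.inr (by ext i; fin_cases i <;> simp [emb, vec, sub_eq_add_neg])⟩,
    ⟨3, Or.inl (by ext i; fin_cases i <;> simp [emb, vec])⟩,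
    ⟨3, Or.inr (by ext i; fin_cases i <;> simp [emb, vec, sub_eq_add_neg])⟩]

/-- The two path neighbours of the point `x` of layer `t`; the walk is entered from `u`. -/
def TB (t : ℤ) : (Fin 4 → ℤ) → P → List (Fin 6) → P → Finset (Fin 4 → ℤ)
  | u, p, [], x => if x = p then {u, emb (t + 1) p} else ∅
  | u, p, d :: l, x => if x = p then {u, emb t (p + vec d)} else TB t (emb t p) (p + vec d) l x

variable {t : ℤ} {u : Fin 4 → ℤ} {p x : P} {l : List (Fin 6)}

lemma TB_empty (h : x ∉ vs p l) : TB t u p l x = ∅ := by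
  induction l generalizing u p with
  | nil => rw [TB, if_neg (by simpa [vs] using h)]
  | cons d l ih =>
    rw [vs, List.mem_cons, not_or] at h
    rw [TB, if_neg h.1, ih h.2]

lemma TB_two (hl : (vs p l).Nodup) (hu : u ∈ nb (emb t p)) (h0 : u 0 ≤ t)
    (h1 : ∀ y ∈ vs p l, u ≠ emb t y) (h : x ∈ vs p l) :
    TB t u p l x ⊆ nb (emb t x) ∧ (TB t u p l x).card = 2 := by
  induction l generalizing u p with
  | nil =>
    obtain rfl := List.mem_singleton.1 h
    rw [TB, if_pos rfl]
    exact ⟨insert_subset hu (singleton_subset_iff.2 (nb_up _ _)),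
      card_pair fun h => by rw [h, emb_zero] at h0; omega⟩
  | cons d l ih =>
    rw [vs, List.nodup_cons] at hl
    rw [TB]
    split_ifs with h2
    · subst h2
      exact ⟨insert_subset hu (singleton_subset_iff.2 (nb_vec _ _ _)),
        card_pair (h1 _ (List.mem_cons_of_mem _ (head_mem _ _)))⟩
    · exact ih hl.2 (nb_symm (nb_vec _ _ _)) le_rfl
        (fun y hy h => hl.1 ((emb_inj.1 h).2 ▸ hy)) ((List.mem_cons.1 h).resolve_left h2)

lemma TB_mem {z : Fin 4 → ℤ} (h : z ∈ TB t u p l x) : (z = u ∧ x = p) ∨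
    (z = emb (t + 1) x ∧ x = p + en l) ∨ ∃ y, z = emb t y ∧ adj p l x y := by
  induction l generalizing u p with
  | nil =>
    rw [TB] at h
    split_ifs at h with h1
    · subst h1
      simpa [adj] using h
    · simp at h
  | cons d l ih =>
    rw [TB] at h
    split_ifs at h with h1
    · rcases mem_insert.1 h with h | h
      · exact Or.inl ⟨h, h1⟩
      · exact Or.inr (Or.inr ⟨_, mem_singleton.1 h, Or.inl ⟨h1, rfl⟩⟩)
    · obtain h | h | ⟨y, h, h2⟩ := ih h
      · exact Or.inr (Or.inr ⟨p, h.1, Or.inr (Or.inl ⟨rfl, h.2⟩)⟩)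
      · exact Or.inr (Or.inl (by rwa [en_cons, ← add_assoc]))
      · exact Or.inr (Or.inr ⟨y, h, Or.inr (Or.inr h2)⟩)

lemma adj_symm {y : P} (h : adj p l x y) : adj p l y x := by
  induction l generalizing p with
  | nil => exact h
  | cons d l ih =>
    exact h.elim (fun h => Or.inr (Or.inl h)) fun h => h.elim Or.inl fun h => Or.inr (Or.inr (ih h))

/-- The weight of a site that is used by two paths. -/
noncomputable def om (S T : Finset (Fin 4 → ℤ)) : ℝ :=
  if S = ∅ ∨ T = ∅ then 1 else 14 / 27 * 3 ^ (S ∩ T).card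

lemma om_nonneg (S T : Finset (Fin 4 → ℤ)) : 0 ≤ om S T := by unfold om; positivity

/-- The factor three on an event. -/
noncomputable def th (q : Prop) : ℝ := by classical exact if q then 3 else 1

lemma th_one (q : Prop) : 1 ≤ th q := by unfold th; split_ifs <;> norm_num

lemma th_mono {q r : Prop} (h : q → r) : th q ≤ th r := by
  by_cases hq : q
  · simp [th, hq, h hq]
  · simpa [th, hq] using th_one r

lemma om_pair {s : P} {A : List (Fin 6)} {S : Finset (Fin 4 → ℤ)} (h : p ∉ vs s A → S = ∅)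
    (h' : p ∈ vs s A → S ≠ ∅) (a b : Fin 4 → ℤ) :
    om S {a, b} ≤ (if p ∈ vs s A then 14 / 27 else 1) * th (a ∈ S) * th (b ∈ S) := by
  split_ifs with h1
  · rw [om, if_neg (by simp [h' h1]), mul_assoc]
    refine mul_le_mul_of_nonneg_left ?_ (by norm_num)
    by_cases ha : a ∈ S <;> by_cases hb : b ∈ S <;> simp [th, ha, hb]
    refine (pow_le_pow_right₀ (by norm_num) card_le_two).trans (by norm_num)
  · simp [om, h h1, th]

lemma layer {s : P} {A : List (Fin 6)} (hA : (vs s A).Nodup) (hl : (vs p l).Nodup) :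
    ((vs p l).map fun x => om (TB t (emb (t - 1) s) s A x) (TB t u p l x)).prod ≤
      th (u ∈ TB t (emb (t - 1) s) s A p) * Wc s A p l * th (s + en A = p + en l) := by
  have h2 : ∀ x ∈ vs s A, TB t (emb (t - 1) s) s A x ≠ ∅ := fun x hx h => by
    have := (TB_two hA (nb_symm (by simpa using nb_up (t - 1) s)) (by simp)
      (fun y _ h => by simp at h) hx (t := t)).2
    rw [h] at this
    simp at this
  have h3 : ∀ x y, emb t y ∈ TB t (emb (t - 1) s) s A x → adj s A x y := fun x y h => by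
    obtain h | h | ⟨z, h, h4⟩ := TB_mem h
    · simp at h; omega
    · simp at h
    · rwa [(emb_inj.1 h).2]
  induction l generalizing u p with
  | nil =>
    simp only [vs, List.map_cons, List.map_nil, List.prod_cons, List.prod_nil, mul_one, TB, if_true,
      Wc_nil]
    refine (om_pair TB_empty (h2 p) _ _).trans ?_
    rw [mul_comm (th _)]
    refine mul_le_mul_of_nonneg_left (th_mono fun h => ?_) (by have := th_one (u ∈ TB t (emb (t - 1) s) s A p); positivity)
    obtain h | h | ⟨z, h, -⟩ := TB_mem h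
    · simp at h; omega
    · simp [h.2]
    · simp at h
  | cons d l ih =>
    rw [vs, List.nodup_cons] at hl
    rw [vs, List.map_cons, List.prod_cons, List.map_congr_left (g := fun x =>
      om (TB t (emb (t - 1) s) s A x) (TB t (emb t p) (p + vec d) l x)) fun x hx => by
        rw [TB, if_neg fun h : x = p => hl.1 (h ▸ hx)], TB, if_pos rfl, Wc_cons, en_cons, ← add_assoc]
    have h4 := th_one (u ∈ TB t (emb (t - 1) s) s A p)
    have h5 := Wc_nonneg s A (p + vec d) l
    have h6 := th_one (s + en A = p + vec d + en l)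
    have h7 : th (emb t (p + vec d) ∈ TB t (emb (t - 1) s) s A p) *
        th (emb t p ∈ TB t (emb (t - 1) s) s A (p + vec d)) ≤ th (adj s A p (p + vec d)) *
          th (adj s A p (p + vec d)) := mul_le_mul (th_mono (h3 _ _))
      (th_mono fun h => adj_symm (h3 _ _ h)) (zero_le_one.trans (th_one _))
      (zero_le_one.trans (th_one _))
    refine (mul_le_mul (om_pair TB_empty (h2 p) _ _) (ih hl.2) (List.prod_nonneg fun r hr => by
      obtain ⟨x, -, rfl⟩ := List.mem_map.1 hr
      exact om_nonneg _ _) (by have := th_one (emb t (p + vec d) ∈ TB t (emb (t - 1) s) s A p); positivity)).trans ?_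
    refine le_trans (le_of_eq (by ring)) ((mul_le_mul_of_nonneg_left h7 (a := (if p ∈ vs s A then
      14 / 27 else 1) * th (u ∈ TB t (emb (t - 1) s) s A p) * Wc s A (p + vec d) l *
        th (s + en A = p + vec d + en l)) (by positivity)).trans_eq ?_)
    unfold th
    split_ifs <;> ring

lemma TB_reach {N : (Fin 4 → ℤ) → Finset (Fin 4 → ℤ)} (hl : (vs p l).Nodup)
    (h : ∀ x ∈ vs p l, TB t u p l x ⊆ N (emb t x)) : u ∈ N (emb t p) ∧
      Relation.ReflTransGen (IsOpenEdge N) (emb t p) (emb t (p + en l)) ∧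
        emb (t + 1) (p + en l) ∈ N (emb t (p + en l)) := by
  induction l generalizing u p with
  | nil =>
    have := h p (head_mem _ _)
    rw [TB, if_pos rfl, insert_subset_iff, singleton_subset_iff] at this
    simpa [this.1, Relation.ReflTransGen.refl] using this.2
  | cons d l ih =>
    rw [vs, List.nodup_cons] at hl
    have h1 := h p (head_mem _ _)
    rw [TB, if_pos rfl, insert_subset_iff, singleton_subset_iff] at h1
    obtain ⟨h2, h3, h4⟩ := ih (u := emb t p) hl.2 fun x hx => by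
      have := h x (List.mem_cons_of_mem _ hx)
      rwa [TB, if_neg fun h : x = p => hl.1 (h ▸ hx)] at this
    rw [en_cons, ← add_assoc]
    exact ⟨h1.1, h3.head ⟨mem_nb.1 (nb_vec _ _ _), h1.2, h2⟩, h4⟩

/-- The vertices of a layered path. -/
def VL : ℤ → P → List (List (Fin 6)) → List (Fin 4 → ℤ)
  | _, _, [] => []
  | t, p, b :: L => (vs p b).map (emb t) ++ VL (t + 1) (p + en b) L

/-- The path neighbours of a point. -/
def TP : ℤ → P → List (List (Fin 6)) → (Fin 4 → ℤ) → Finset (Fin 4 → ℤ)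
  | _, _, [], _ => ∅
  | t, p, b :: L, x =>
    if x 0 = t then TB t (emb (t - 1) p) p b (tl x) else TP (t + 1) (p + en b) L x

variable {L : List (List (Fin 6))} {z : Fin 4 → ℤ}

lemma VL_le (h : z ∈ VL t p L) : t ≤ z 0 := by
  induction L generalizing t p with
  | nil => simp [VL] at h
  | cons b L ih =>
    rcases List.mem_append.1 h with h | h
    · obtain ⟨y, -, rfl⟩ := List.mem_map.1 h
      exact le_rfl
    · have := ih h
      omega

lemma TP_head (b : List (Fin 6)) (y : P) :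
    TP t p (b :: L) (emb t y) = TB t (emb (t - 1) p) p b y := if_pos rfl

lemma TP_tail {q : P} {M : List (List (Fin 6))} (b : List (Fin 6)) (h : z ∈ VL (t + 1) q M) :
    TP t p (b :: L) z = TP (t + 1) (p + en b) L z := if_neg (by have := VL_le h; omega)

lemma TP_empty (h : z ∉ VL t p L) : TP t p L z = ∅ := by
  induction L generalizing t p with
  | nil => rfl
  | cons b L ih =>
    rw [VL, List.mem_append, not_or] at h
    rw [TP]
    split_ifs with h1
    · exact TB_empty fun h2 => h.1 (List.mem_map.2 ⟨_, h2, h1 ▸ emb_tl z⟩)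
    · exact ih h.2

/-- All blocks are self-avoiding. -/
def OK (L : List (List (Fin 6))) : Prop := ∀ b ∈ L, ∀ p, (vs p b).Nodup

lemma OK.tail {b : List (Fin 6)} (h : OK (b :: L)) : OK L := fun c hc => h c (List.mem_cons_of_mem _ hc)

lemma TP_two (hL : OK L) (h : z ∈ VL t p L) : TP t p L z ⊆ nb z ∧ (TP t p L z).card = 2 := by
  induction L generalizing t p with
  | nil => simp [VL] at h
  | cons b L ih =>
    rcases List.mem_append.1 h with h | h
    · obtain ⟨y, hy, rfl⟩ := List.mem_map.1 h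
      rw [TP_head]
      exact TB_two (hL b List.mem_cons_self p) (nb_symm (by simpa using nb_up (t - 1) p)) (by simp)
        (fun y _ h => by simp at h) hy
    · rw [TP_tail b h]
      exact ih hL.tail h

lemma VL_nodup (hL : OK L) : (VL t p L).Nodup := by
  induction L generalizing t p with
  | nil => simp [VL]
  | cons b L ih =>
    refine List.nodup_append.2 ⟨(hL b List.mem_cons_self p).map fun x y h => (emb_inj.1 h).2,
      ih hL.tail, fun x hx y hy h => ?_⟩
    obtain ⟨w, -, rfl⟩ := List.mem_map.1 hx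
    have := VL_le (h ▸ hy)
    simp at this

lemma TP_reach {N : (Fin 4 → ℤ) → Finset (Fin 4 → ℤ)} {b : List (Fin 6)} (hL : OK (b :: L))
    (h : ∀ x ∈ VL t p (b :: L), TP t p (b :: L) x ⊆ N x) : emb (t - 1) p ∈ N (emb t p) ∧
      ∃ y, Relation.ReflTransGen (IsOpenEdge N) (emb t p) (emb (t + L.length) y) := by
  induction L generalizing t p b with
  | nil => exact ⟨(TB_reach (hL b List.mem_cons_self p) fun x hx => TP_head (L := []) b x ▸ h _
      (List.mem_append_left _ (List.mem_map_of_mem hx))).1, p, by simp; rfl⟩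
  | cons c L ih =>
    obtain ⟨h1, h2, h3⟩ := TB_reach (hL b List.mem_cons_self p) fun x hx =>
      TP_head (L := c :: L) b x ▸ h _ (List.mem_append_left _ (List.mem_map_of_mem hx))
    obtain ⟨h4, y, h5⟩ := ih (t := t + 1) (p := p + en b) hL.tail fun x hx =>
      TP_tail b hx ▸ h x (List.mem_append_right _ hx)
    rw [add_sub_cancel_right] at h4
    refine ⟨h1, y, (h2.tail ⟨mem_nb.1 (nb_up _ _), h3, h4⟩).trans ?_⟩
    rwa [List.length_cons, Nat.cast_succ, add_comm (L.length : ℤ), ← add_assoc]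

/-- The weight of a pair of layered paths. -/
noncomputable def WW : P → List (List (Fin 6)) → List (List (Fin 6)) → ℝ
  | s, A :: La, B :: Lb => (if s = 0 then 9 else 1) * Wc s A 0 B * WW (s + en A - en B) La Lb
  | _, _, _ => 1

lemma prod_om {s : P} {M : List (List (Fin 6))} (hM : OK M) (hL : OK L)
    (h : M.length = L.length) :
    th (s = p) * ((VL t p L).map fun x => om (TP t s M x) (TP t p L x)).prod ≤ 3 * WW (s - p) M L := by
  induction L generalizing t s p M with
  | nil =>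
    obtain rfl := List.length_eq_zero_iff.1 h
    simpa [VL, WW, th] using th_mono (q := s = p) fun _ => trivial
  | cons B L ih =>
    obtain ⟨A, M, rfl⟩ := List.exists_cons_of_length_eq_add_one h
    have h1 := layer (t := t) (u := emb (t - 1) p) (hM A List.mem_cons_self s) (hL B List.mem_cons_self p)
    have h2 := ih (t := t + 1) (s := s + en A) (p := p + en B) hM.tail hL.tail (Nat.succ.inj h)
    have h3 : th (emb (t - 1) p ∈ TB t (emb (t - 1) s) s A p) ≤ th (s = p) := th_mono fun h => by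
      obtain h | h | ⟨z, h, -⟩ := TB_mem h
      · exact h.2.symm
      · simp at h; omega
      · simp at h
    have h4 := Wc_nonneg s A p B
    have h5 := th_one (s = p)
    have h6 := th_one (s + en A = p + en B)
    rw [VL, List.map_append, List.prod_append, List.map_map, WW, ← Wc_shift,
      List.map_congr_left (l := VL _ _ _) fun x hx => by rw [TP_tail A hx, TP_tail B hx],
      show s - p + en A - en B = s + en A - (p + en B) by abel]
    simp only [Function.comp_def, TP_head, sub_eq_zero]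
    have h7 : 0 ≤ ((VL (t + 1) (p + en B) L).map fun x => om (TP (t + 1) (s + en A) M x)
        (TP (t + 1) (p + en B) L x)).prod := List.prod_nonneg fun r hr => by
      obtain ⟨x, -, rfl⟩ := List.mem_map.1 hr
      exact om_nonneg _ _
    refine (mul_le_mul_of_nonneg_left (mul_le_mul_of_nonneg_right (h1.trans
      (mul_le_mul_of_nonneg_right (mul_le_mul_of_nonneg_right h3 h4) (by positivity))) h7)
      (by positivity)).trans (le_trans (le_of_eq (by ring)) ((mul_le_mul_of_nonneg_left h2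
        (a := th (s = p) * th (s = p) * Wc s A p B) (by positivity)).trans_eq ?_))
    unfold th
    split_ifs <;> ring

/-- The event that a layered path is open. -/
def EV (L : List (List (Fin 6))) : Set ((Fin 4 → ℤ) → Finset (Fin 4 → ℤ)) :=
  Set.pi ↑(VL 0 0 L).toFinset fun x => {s | TP 0 0 L x ⊆ s}

lemma EV_eq (L : List (List (Fin 6))) {S : Finset (Fin 4 → ℤ)} (hS : (VL 0 0 L).toFinset ⊆ S) :
    EV L = Set.pi ↑S fun x => {s | TP 0 0 L x ⊆ s} := by
  ext ω
  refine ⟨fun h x _ => ?_, fun h x hx => h x (hS hx)⟩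
  by_cases hx : x ∈ VL 0 0 L
  · exact h x (List.mem_toFinset.2 hx)
  · simp [TP_empty hx]

lemma TP_cases (hL : OK L) (z : Fin 4 → ℤ) :
    TP t p L z ⊆ nb z ∧ (TP t p L z = ∅ ∨ (TP t p L z).card = 2) := by
  by_cases h : z ∈ VL t p L
  · exact ⟨(TP_two hL h).1, Or.inr (TP_two hL h).2⟩
  · simp [TP_empty h]

lemma site_om {S T : Finset (Fin 4 → ℤ)} (hS : S ⊆ nb z ∧ (S = ∅ ∨ S.card = 2))
    (hT : T ⊆ nb z ∧ (T = ∅ ∨ T.card = 2)) : (site 4 z).real {s | S ∪ T ⊆ s} ≤
      (site 4 z).real {s | S ⊆ s} * (site 4 z).real {s | T ⊆ s} * om S T := by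
  have := site_prob (k := 4) (by norm_num) z
  unfold om
  split_ifs with h
  · rcases h with rfl | rfl <;> simp
  · have h1 := hS.2.resolve_left fun h1 => h (Or.inl h1)
    have h2 := hT.2.resolve_left fun h1 => h (Or.inr h1)
    have h3 := card_union_add_card_inter S T
    have h4 := card_le_card (inter_subset_left (s₁ := S) (s₂ := T))
    rw [site_val (by norm_num) z (union_subset hS.1 hT.1) (by omega),
      site_val (by norm_num) z hS.1 (by omega), site_val (by norm_num) z hT.1 (by omega), h1, h2,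
      show (S ∪ T).card = 4 - (S ∩ T).card by omega]
    rw [h1] at h4
    interval_cases (S ∩ T).card <;> norm_num [ff, Nat.choose]

lemma EV_pair {M : List (List (Fin 6))} (hM : OK M) (hL : OK L) (h : M.length = L.length) :
    (law 4 4).real (EV M ∩ EV L) ≤ (law 4 4).real (EV M) * (law 4 4).real (EV L) * WW 0 M L := by
  have e1 : EV M ∩ EV L = Set.pi ↑((VL 0 0 M).toFinset ∪ (VL 0 0 L).toFinset)
      fun x => {s | TP 0 0 M x ∪ TP 0 0 L x ⊆ s} := by
    rw [EV_eq M (subset_union_left (s₂ := (VL 0 0 L).toFinset)),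
      EV_eq L (subset_union_right (s₁ := (VL 0 0 M).toFinset))]
    ext ω
    simp only [Set.mem_inter_iff, Set.mem_pi, Set.mem_ofPred_eq, union_subset_iff]
    exact ⟨fun h x hx => ⟨h.1 x hx, h.2 x hx⟩, fun h => ⟨fun x hx => (h x hx).1,
      fun x hx => (h x hx).2⟩⟩
  have h1 := prod_om (t := 0) (s := 0) (p := 0) hM hL h
  rw [th, if_pos rfl, sub_zero, ← List.prod_toFinset _ (VL_nodup hL), prod_subset
    (subset_union_right (s₁ := (VL 0 0 M).toFinset)) fun x _ hx => by
      rw [TP_empty (L := L) fun h => hx (List.mem_toFinset.2 h), om, if_pos (Or.inr rfl)]] at h1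
  refine le_trans ?_ (mul_le_mul_of_nonneg_left (le_of_mul_le_mul_left h1 (by norm_num))
    (mul_nonneg measureReal_nonneg measureReal_nonneg))
  rw [e1, EV_eq M (subset_union_left (s₂ := (VL 0 0 L).toFinset)),
    EV_eq L (subset_union_right (s₁ := (VL 0 0 M).toFinset)), law_pi (by norm_num),
    law_pi (by norm_num), law_pi (by norm_num), ← prod_mul_distrib, ← prod_mul_distrib]
  exact prod_le_prod (fun _ _ => measureReal_nonneg) fun x _ =>
    site_om (TP_cases hM x) (TP_cases hL x)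

/-- Layered paths with `n` blocks. -/
def paths (F : Finset (List (Fin 6))) : ℕ → Finset (List (List (Fin 6)))
  | 0 => {[]}
  | n + 1 => (F ×ˢ paths F n).image fun x => x.1 :: x.2

variable {F : Finset (List (Fin 6))}

lemma sum_paths (n : ℕ) (Φ : List (List (Fin 6)) → ℝ) :
    ∑ L ∈ paths F (n + 1), Φ L = ∑ b ∈ F, ∑ L ∈ paths F n, Φ (b :: L) := by
  rw [paths, sum_image fun x _ y _ h => Prod.ext (List.cons.inj h).1 (List.cons.inj h).2, sum_product]

lemma vs_shift (p q : P) (l : List (Fin 6)) : vs (p + q) l = (vs p l).map (· + q) := by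
  induction l generalizing p with
  | nil => rfl
  | cons d l ih => rw [vs, vs, List.map_cons, add_right_comm, ih]

lemma paths_ok (hF : ∀ b ∈ F, (vs 0 b).Nodup) {n : ℕ} (h : L ∈ paths F n) : OK L ∧ L.length = n := by
  induction n generalizing L with
  | zero => rw [mem_singleton.1 h]; simp [OK]
  | succ n ih =>
    obtain ⟨⟨b, M⟩, h0, rfl⟩ := mem_image.1 h
    obtain ⟨h1, h2⟩ := mem_product.1 h0
    refine ⟨fun c hc p => ?_, by simp [(ih h2).2]⟩
    rcases List.mem_cons.1 hc with rfl | hc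
    · rw [← zero_add p, vs_shift]
      exact (hF _ h1).map (add_left_injective p)
    · exact (ih h2).1 c hc p

/-- The probability of a layered path. -/
noncomputable def pp (L : List (List (Fin 6))) : ℝ := (L.map fun b => (ww b : ℝ) / 21539).prod

theorem perc (hF : ∀ b ∈ F, (vs 0 b).Nodup) (hZ : ∑ b ∈ F, ww b = 21539) (h : P → ℝ) (h1 : ∀ s, 1 ≤ h s)
    (key : ∀ s, (if s = 0 then 9 else 1) * ∑ A ∈ F, ∑ B ∈ F,
      ww A * ww B * Wc s A 0 B * h (s + en A - en B) ≤ 21539 ^ 2 * h s) : 0 < theta 4 4 := by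
  have := law_prob (d := 4) (k := 4) (by norm_num)
  have p0 : ∀ L, 0 ≤ pp L := fun L => List.prod_nonneg fun r hr => by
    obtain ⟨x, -, rfl⟩ := List.mem_map.1 hr
    positivity
  have p1 : ∀ n, ∑ L ∈ paths F n, pp L = 1 := fun n => by
    induction n with
    | zero => simp [paths, pp]
    | succ n ih =>
      simp only [sum_paths, pp, List.map_cons, List.prod_cons, ← mul_sum] at ih ⊢
      rw [ih]
      simp only [mul_one, ← sum_div, ← Nat.cast_sum, hZ]
      norm_num
  have p2 : ∀ n s, ∑ M ∈ paths F n, ∑ L ∈ paths F n, pp M * pp L * WW s M L ≤ h s := fun n => by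
    induction n with
    | zero => simpa [paths, pp, WW] using h1
    | succ n ih =>
      intro s
      refine le_of_mul_le_mul_left (le_trans ?_ (key s)) (by norm_num)
      rw [sum_paths, mul_sum, mul_sum]
      refine sum_le_sum fun A _ => ?_
      simp only [sum_paths]
      rw [sum_comm, mul_sum, mul_sum]
      refine sum_le_sum fun B _ => ?_
      have := Wc_nonneg s A 0 B
      refine le_trans (le_of_eq ?_) ((mul_le_mul_of_nonneg_left (ih (s + en A - en B)) (a := (if s = 0
        then 9 else 1) * (ww A * ww B * Wc s A 0 B)) (by positivity)).trans_eq (by ring))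
      simp only [mul_sum, pp, List.map_cons, List.prod_cons, WW]
      exact sum_congr rfl fun _ _ => sum_congr rfl fun _ _ => by field_simp
  have hE : ∀ L, MeasurableSet (EV L) := fun L =>
    MeasurableSet.pi (Set.to_countable _) fun _ _ => meas_all _
  have K0 : 0 < h 0 := one_pos.trans_le (h1 0)
  set U : ℕ → Set ((Fin 4 → ℤ) → Finset (Fin 4 → ℤ)) := fun n => ⋃ L ∈ paths F (n + 1), EV L
  set C : ℕ → Set ((Fin 4 → ℤ) → Finset (Fin 4 → ℤ)) := fun n => ⋃ m, ⋃ _ : n ≤ m, U m
  have hCm : ∀ n, MeasurableSet (C n) := fun n => MeasurableSet.iUnion fun m =>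
    MeasurableSet.iUnion fun _ => (paths F _).measurableSet_biUnion fun L _ => hE L
  have hanti : Antitone C := fun m n hmn => Set.biUnion_subset_biUnion_left fun l hl => hmn.trans hl
  have hlow : ∀ n, ENNReal.ofReal (1 / h 0) ≤ law 4 4 (C n) := fun n => by
    refine le_trans ?_ (measure_mono (s := U n) fun ω hω =>
      Set.mem_iUnion.mpr ⟨n, Set.mem_iUnion.mpr ⟨le_rfl, hω⟩⟩)
    rw [ENNReal.ofReal_le_iff_le_toReal (measure_ne_top _ _)]
    refine second_moment_w _ _ pp p0 (p1 _) EV hE (fun L hL => ?_) _ (fun M hM L hL => EV_pair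
      (paths_ok hF hM).1 (paths_ok hF hL).1 ((paths_ok hF hM).2.trans (paths_ok hF hL).2.symm)) K0 (p2 _ 0)
    rw [EV, law_pi (by norm_num)]
    refine prod_pos fun x hx => ?_
    have h2 := TP_two (paths_ok hF hL).1 (List.mem_toFinset.1 hx)
    rw [site_val (by norm_num) x h2.1 (by omega), h2.2]
    norm_num [ff, Nat.choose]
  have hge := ge_of_tendsto' (tendsto_measure_iInter_atTop (μ := law 4 4)
    (fun n => (hCm n).nullMeasurableSet) hanti ⟨0, measure_ne_top _ _⟩) hlow
  refine (ENNReal.ofReal_pos.mpr (one_div_pos.2 K0)).trans_le (hge.trans (measure_mono fun N hN => ?_))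
  refine Set.Infinite.of_image (· 0) (Set.infinite_of_forall_exists_gt fun z => ?_)
  obtain ⟨m, hm⟩ := Set.mem_iUnion.mp (Set.mem_iInter.mp hN (z.toNat + 1))
  obtain ⟨hm, h⟩ := Set.mem_iUnion.mp hm
  obtain ⟨L, hL, ha⟩ := Set.mem_iUnion₂.mp h
  obtain ⟨h2, h3⟩ := paths_ok hF hL
  obtain ⟨b, L, rfl⟩ := List.exists_cons_of_length_eq_add_one h3
  obtain ⟨-, y, h4⟩ := TP_reach h2 fun x hx => ha x (List.mem_toFinset.2 hx)
  rw [show emb 0 0 = 0 by ext i; fin_cases i <;> rfl] at h4
  refine ⟨_, ⟨_, h4, rfl⟩, ?_⟩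
  simp only [emb_zero, List.length_cons] at h3 ⊢
  omega

end

section

/-! What the lane programs compute. -/

open Finset

lemma frc_eq (n : ℕ) (f : ℕ → ℕ) : frc n f = f n := by cases n <;> rfl

lemma bits_eq (X a w : ℕ) : bits X a w = X >>> a % 2 ^ w := by
  rw [← Nat.and_two_pow_sub_one_eq_mod, ← Nat.one_shiftLeft]
  rfl

lemma Hl_lt (j : ℕ) : Hl j < 2 ^ 27 := by
  rw [Hl, bits_eq]
  exact Nat.mod_lt _ (by norm_num)

lemma pk_eq (f : ℕ → ℕ) (n : ℕ) : pk f n = pack 100 n f := by
  induction n with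
  | zero => rfl
  | succ n ih => rw [pack_succ', ← ih, ← Nat.shiftLeft_eq]; rfl

lemma dbl_eq (f : ℕ → ℕ) (m : ℕ) : dbl (pack 100 1723 f) (pack 100 m fun i => f (i % 1723)) =
    pack 100 (1723 + m) fun i => f (i % 1723) :=
  (pack_append 100 1723 m _ _).trans (pack_congr fun i _ => by
    split_ifs with h
    · rw [Nat.mod_eq_of_lt h]
    · rw [Nat.mod_eq_sub_mod (not_lt.1 h)])

lemma dbl_self (f : ℕ → ℕ) : dbl (pack 100 1723 f) (pack 100 1723 f) =
    pack 100 3446 fun i => f (i % 1723) := by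
  rw [← dbl_eq f 1723]
  exact congrArg _ (pack_congr fun i hi => by rw [Nat.mod_eq_of_lt hi])

lemma bits_pack {W n q m : ℕ} {f : ℕ → ℕ} (h : ∀ i < n, f i < 2 ^ W) (hq : q + m ≤ n) :
    bits (pack W n f) (W * q) (W * m) = pack W m fun k => f (k + q) := by
  rw [bits_eq, pack_shiftRight q h, pack_mod m (by omega) fun i hi => h _ (by omega)]

lemma win_eq {n q : ℕ} {f : ℕ → ℕ} (h : ∀ i < n, f i < 2 ^ 100) (hq : q + 1723 ≤ n) :
    win (pack 100 n f) q = pack 100 1723 fun k => f (k + q) := by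
  rw [win, show 172300 = 100 * 1723 from rfl, Nat.mul_eq, bits_pack h hq]

lemma pack_lor {W n : ℕ} {f g : ℕ → ℕ} (hf : ∀ i < n, f i < 2 ^ W) (hg : ∀ i < n, g i < 2 ^ W) :
    pack W n f ||| pack W n g = pack W n fun i => f i ||| g i := by
  induction n generalizing f g with
  | zero => simp
  | succ n ih =>
    have ha := hf 0 (by omega)
    have hb := hg 0 (by omega)
    rw [pack_succ, pack_succ, pack_succ, ← ih (fun i hi => hf _ (by omega)) fun i hi => hg _ (by omega)]
    refine Nat.eq_of_testBit_eq fun j => ?_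
    rw [Nat.testBit_or, Nat.testBit_two_pow_mul_add _ ha, Nat.testBit_two_pow_mul_add _ hb,
      Nat.testBit_two_pow_mul_add _ (Nat.or_lt_two_pow ha hb)]
    split_ifs <;> rw [Nat.testBit_or]

lemma ones_eq : ones = 2 ^ 100 - 1 := by norm_num [ones]

lemma ite_lt (q : Prop) [Decidable q] : (if q then ones else 0) < 2 ^ 100 := by
  rw [ones_eq]; split_ifs <;> norm_num

lemma ite_lor (a b : Prop) [Decidable a] [Decidable b] (x : ℕ) :
    (if a then x else 0) ||| (if b then x else 0) = if a ∨ b then x else 0 := by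
  by_cases ha : a <;> by_cases hb : b <;> simp [ha, hb]

lemma pack_single {n j : ℕ} (h : j < n) :
    Nat.shiftLeft ones (Nat.mul 100 j) = pack 100 n fun i => if i = j then ones else 0 := by
  simp only [pack, ite_mul, zero_mul, sum_ite_eq', mem_range, h, if_true, ← Nat.shiftLeft_eq]
  rfl

lemma mask_eq {js : List ℕ} (h : ∀ j ∈ js, j < 1723) :
    mask js = pack 100 3446 fun i => if i % 1723 ∈ js then ones else 0 := by
  induction js with
  | nil => simp [mask, pack_const_zero]
  | cons j l ih =>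
    have hj := h j List.mem_cons_self
    rw [mask, ih fun i hi => h i (List.mem_cons_of_mem _ hi), pack_single (n := 3446) (by omega),
      pack_single (n := 3446) (j := Nat.add j 1723) (Nat.add_lt_add_right hj 1723)]
    refine (congrArg (· ||| _) (pack_lor (fun _ _ => ite_lt _) fun _ _ => ite_lt _)).trans
      ((pack_lor (fun _ _ => Nat.or_lt_two_pow (ite_lt _) (ite_lt _)) fun _ _ => ite_lt _).trans
        (pack_congr fun i hi => ?_))
    have e : i % 1723 = j ↔ i = j ∨ i = j + 1723 := by omega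
    rw [ite_lor, ite_lor]
    exact if_congr (by rw [List.mem_cons, e, Nat.add_eq]) rfl rfl

lemma land_mask {js : List ℕ} (h : ∀ j ∈ js, j < 1723) {q : ℕ} (hq : q < 1723) {f : ℕ → ℕ}
    (hf : ∀ i < 1723, f i < 2 ^ 100) : Nat.land (pack 100 1723 f) (win (mask js) q) =
      pack 100 1723 fun k => if (k + q) % 1723 ∈ js then f k else 0 := by
  rw [mask_eq h, win_eq (fun _ _ => ite_lt _) (by omega)]
  refine (pack_land hf fun _ _ => ite_lt _).trans (pack_congr fun i hi => ?_)
  split_ifs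
  · rw [ones_eq, Nat.and_two_pow_sub_one_eq_mod, Nat.mod_eq_of_lt (hf i hi)]
  · simp

/-- All entries are residues. -/
structure Cf.ok (c : Cf) : Prop where
  o : c.o < 1723
  v : ∀ j ∈ c.v, j < 1723
  e : ∀ d, ∀ j ∈ c.e d, j < 1723

/-- The vertex weight in lane `k`. -/
def vv (c : Cf) (k q : ℕ) : ℕ := if (k + q) % 1723 ∈ c.v then 14 else 27

/-- The edge weight in lane `k`. -/
def ee (c : Cf) (k : ℕ) (d : Fin 6) (q : ℕ) : ℕ := if (k + q) % 1723 ∈ c.e d then 9 else 1

/-- The table in lane `k`. -/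
noncomputable def hk (c : Cf) (k q : ℕ) : ℕ := Hl ((k + (q + c.o)) % 1723)

/-- The search in one lane. -/
noncomputable def sd (v : ℕ → ℕ) (e : Fin 6 → ℕ → ℕ) (h : ℕ → ℕ) : ℕ → ℕ → ℕ → ℕ
  | 0, q, _ => v q * h q
  | f + 1, q, vis => v q * (135 ^ (f + 1) * h q + ∑ d, if vis.testBit (mv q d) then 0 else
      e d (mv q d) * sd v e h f (mv q d) (vis ||| 2 ^ q))

/-- A bound for the inner sums. -/
def bd : ℕ → ℕ
  | 0 => 2 ^ 27
  | f + 1 => 135 ^ (f + 1) * 2 ^ 27 + 6 * (9 * (27 * bd f))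

lemma bd_lt {f : ℕ} (h : f ≤ 5) : 21539 * (27 * bd f) < 2 ^ 100 := by
  interval_cases f <;> norm_num [bd]

variable {c : Cf} {q : ℕ}

lemma vv_le (k q : ℕ) : vv c k q ≤ 27 := by unfold vv; split_ifs <;> norm_num

lemma ee_le (k : ℕ) (d : Fin 6) (q : ℕ) : ee c k d q ≤ 9 := by unfold ee; split_ifs <;> norm_num

lemma inner_le {k f q vis : ℕ} {G : Fin 6 → ℕ} (h : ∀ d, G d ≤ 27 * bd f) :
    (135 ^ (f + 1) * hk c k q + ∑ d, if vis.testBit (mv q d) then 0 else
      ee c k d (mv q d) * G d) ≤ bd (f + 1) :=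
  Nat.add_le_add (Nat.mul_le_mul_left _ (Hl_lt _).le) ((sum_le_card_nsmul _ _ (9 * (27 * bd f)) fun d _ => by
    split_ifs
    exacts [Nat.zero_le _, Nat.mul_le_mul (ee_le _ _ _) (h d)]).trans_eq (by simp))

lemma sd_le (k f q vis : ℕ) : sd (vv c k) (ee c k) (hk c k) f q vis ≤ 27 * bd f := by
  induction f generalizing q vis with
  | zero => exact Nat.mul_le_mul (vv_le _ _) (Hl_lt _).le
  | succ f ih => exact Nat.mul_le_mul (vv_le _ _) (inner_le fun d => ih _ _)

lemma mv_lt (q : ℕ) (d : Fin 6) : mv q d < 1723 := Nat.mod_lt _ (by norm_num)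

lemma hw_eq (hc : c.ok) (hq : q < 1723) : hw c q = pack 100 1723 fun k => hk c k q := by
  have := hc.o
  rw [hw, H3, pk_eq, dbl_self, dbl_eq, win_eq (fun i _ => (Hl_lt _).trans (by norm_num))
    (by rw [Nat.add_eq]; omega)]
  rfl

lemma vert_eq (hc : c.ok) (hq : q < 1723) {f : ℕ → ℕ} (hf : ∀ i < 1723, f i < 2 ^ 100) :
    vert c q (pack 100 1723 f) = pack 100 1723 fun k => vv c k q * f k := by
  rw [vert, land_mask hc.v hq hf, Nat.mul_eq, Nat.mul_eq, Nat.sub_eq, pack_smul, pack_smul,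
    pack_sub fun i _ => by split_ifs <;> omega]
  exact pack_congr fun i _ => by unfold vv; split_ifs <;> omega

lemma edge_eq (hc : c.ok) (d : Fin 6) (hq : q < 1723) {f : ℕ → ℕ}
    (hf : ∀ i < 1723, f i < 2 ^ 100) :
    edge c d q (pack 100 1723 f) = pack 100 1723 fun k => ee c k d q * f k := by
  rw [edge, land_mask (hc.e d) hq hf, Nat.mul_eq, Nat.add_eq, pack_smul, pack_add]
  exact pack_congr fun i _ => by unfold ee; split_ifs <;> omega

lemma stp_eq {g : Fin 6 → ℕ → ℕ} {G : ℕ → Fin 6 → ℕ → ℕ}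
    (h : ∀ d, ∀ r < 1723, g d r = pack 100 1723 fun k => G k d r) (vis : ℕ) (d : Fin 6)
    (f : ℕ → ℕ) : stp g q vis d (pack 100 1723 f) =
      pack 100 1723 fun k => f k + if vis.testBit (mv q d) then 0 else G k d (mv q d) := by
  rw [stp, frc_eq, h d _ (mv_lt _ _)]
  cases vis.testBit (mv q d)
  · exact pack_add _ _ _ _
  · rfl

lemma node_eq (hc : c.ok) (hq : q < 1723) {f vis : ℕ} (hf : f ≤ 4) {g : Fin 6 → ℕ → ℕ}
    (h : ∀ d, ∀ r < 1723, g d r = pack 100 1723 fun k => ee c k d r *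
      sd (vv c k) (ee c k) (hk c k) f r (vis ||| 2 ^ q)) :
    node c g (135 ^ (f + 1)) q vis =
      pack 100 1723 fun k => sd (vv c k) (ee c k) (hk c k) (f + 1) q vis := by
  rw [node, hw_eq hc hq, Nat.mul_eq, pack_smul]
  simp only [stp_eq h, add_assoc]
  simp only [sd, Fin.sum_univ_six, add_assoc]
  refine vert_eq hc hq fun k _ => ?_
  have h1 := inner_le (c := c) (k := k) (q := q) (vis := vis) fun d => sd_le (c := c) k f (mv q d)
    (vis ||| 2 ^ q)
  have h2 := bd_lt (f := f + 1) (by omega)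
  simp only [Fin.sum_univ_six, add_assoc] at h1
  omega

lemma dfs_eq (hc : c.ok) {f : ℕ} (hf : f ≤ 4) (hq : q < 1723) (vis : ℕ) :
    dfs c f q vis = pack 100 1723 fun k => sd (vv c k) (ee c k) (hk c k) (f + 1) q vis := by
  have hb : ∀ f ≤ 5, ∀ r vis, ∀ k < 1723, sd (vv c k) (ee c k) (hk c k) f r vis < 2 ^ 100 :=
    fun f hf r vis k _ => by have := sd_le (c := c) k f r vis; have := bd_lt hf; omega
  induction f generalizing q vis with
  | zero =>
    refine node_eq hc hq hf (f := 0) fun d r hr => ?_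
    rw [lf, hw_eq hc hr, vert_eq hc hr (f := fun k => hk c k r) fun i _ => (Hl_lt _).trans (by norm_num)]
    exact edge_eq hc d hr (hb 0 (by omega) r 0)
  | succ f ih =>
    refine node_eq hc hq hf (f := f + 1) fun d r hr => ?_
    rw [← Nat.one_shiftLeft, ← edge_eq hc d hr (hb _ (by omega) r _), ← ih (by omega) hr]
    rfl

/-- The residue of a point. -/
noncomputable def ell (p : P) : ℕ := ell3 p.1 p.2.1 p.2.2

lemma ell_lt (p : P) : ell p < 1723 := by unfold ell ell3; omega

lemma ell_add (p q : P) : (ell p + ell q) % 1723 = ell (p + q) := by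
  simp only [ell, ell3, Prod.fst_add, Prod.snd_add]
  omega

lemma mv_ell (p : P) (d : Fin 6) : mv (ell p) d = ell (p - vec d) := by
  rw [sub_eq_add_neg, ← ell_add, show ell (-vec d) = dl d by revert d; decide +kernel]
  rfl

lemma vec_opp (d : Fin 6) : vec (opp d) = -vec d := by revert d; decide

lemma ell_inj {p q : P} (h : n1 (p - q) ≤ 20) (e : ell p = ell q) : p = q := by
  have key : ∀ b < 41, ∀ c < 41, b = 20 ∧ c = 20 ∨
      (20 < (24 * b + 464 * c + 578) % 1723 + ((b - 20) + (20 - b) + (c - 20) + (20 - c)) ∧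
        (24 * b + 464 * c + 578) % 1723 + 20 < 1723 + ((b - 20) + (20 - b) + (c - 20) + (20 - c))) := by
    decide +kernel
  obtain ⟨a, b, c⟩ := p
  obtain ⟨x, y, z⟩ := q
  simp only [n1, ell, ell3, Prod.mk_sub_mk, Prod.mk.injEq] at h e ⊢
  obtain ⟨u, rfl⟩ : ∃ u : ℕ, b = y + u - 20 := ⟨(b - y + 20).toNat, by omega⟩
  obtain ⟨v, rfl⟩ : ∃ v : ℕ, c = z + v - 20 := ⟨(c - z + 20).toNat, by omega⟩
  have h1 := key u (by omega) v (by omega)
  obtain ⟨k, h2⟩ : (1723 : ℤ) ∣ a - x + (24 * u + 464 * v + 578) := by omega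
  have h3 := Nat.mod_lt (24 * u + 464 * v + 578) (by norm_num : 1723 > 0)
  have h4 := Nat.div_add_mod (24 * u + 464 * v + 578) 1723
  generalize (24 * u + 464 * v + 578) % 1723 = r at h1 h3 h4
  generalize (24 * u + 464 * v + 578) / 1723 = m at h4
  have h5 : a - x + r = 1723 * (k - m) := by omega
  generalize k - m = n at h5
  clear e
  have h6 : u = 20 ∧ v = 20 := by clear h2 h4; omega
  omega

lemma sd_spec {v : ℕ → ℕ} {e : Fin 6 → ℕ → ℕ} {h : ℕ → ℕ} {vR : P → ℝ} {eR : P → P → ℝ}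
    {H : P → ℝ} (hv : ∀ x, n1 x ≤ 5 → (v (ell (-x)) : ℝ) = 27 * vR x)
    (he : ∀ x d, n1 (x + vec d) ≤ 5 → (e d (ell (-(x + vec d))) : ℝ) = eR x (x + vec d))
    (hh : ∀ x, (h (ell (-x)) : ℝ) = H x) (f : ℕ) (p : P) (vis : ℕ) (L : List P) (hp : n1 p + f ≤ 5)
    (hL : ∀ x, n1 x ≤ 5 → (vis.testBit (ell (-x)) = true ↔ x ∈ L)) :
    (sd v e h f (ell (-p)) vis : ℝ) = 27 ^ (f + 1) *
      ∑ l ∈ fam true f L p, 5 ^ (f - l.length) * wt vR eR p l * H (p + en l) := by
  induction f generalizing p vis L with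
  | zero => simp [sd, fam_zero, wt, hv p hp, hh, mul_assoc]
  | succ f ih =>
    have h1 : ∀ d, n1 (p + vec d) + f ≤ 5 := fun d => by
      have := n1_add p (vec d); rw [n1_vec] at this; omega
    rw [sd, sum_fam]
    push_cast
    rw [hv p (by omega), hh, mul_add, mul_add, mul_sum, mul_sum]
    refine congrArg₂ _ (by
      simp only [wt, List.length_nil, en_nil, add_zero, tsub_zero]
      rw [show (135 : ℝ) = 27 * 5 by norm_num, mul_pow]
      ring)
      (sum_congr rfl fun d _ => ?_)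
    rw [mv_ell, ← neg_add', he p d (by have := h1 d; omega), ih _ _ (p :: L) (h1 d) fun x hx => ?_]
    · simp only [hL _ (by have := h1 d; omega : n1 (p + vec d) ≤ 5), true_and]
      split_ifs
      · simp
      · simp only [mul_sum, wt, List.length_cons, Nat.add_sub_add_right, en_cons, add_assoc]
        exact sum_congr rfl fun l _ => by ring
    · rw [Nat.testBit_or, Bool.or_eq_true, hL x hx, Nat.testBit_two_pow, decide_eq_true_iff,
        List.mem_cons, or_comm]
      refine or_congr_left ⟨fun h => neg_injective (ell_inj ?_ h).symm, fun h => by rw [h]⟩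
      have := n1_sub x p
      rw [show -p - -x = x - p by abel]
      omega

lemma jv_eq (s p : P) (l : List (Fin 6)) :
    jv (ell (s - p)) l = (vs p l).map fun a => ell (s - a) := by
  induction l generalizing p with
  | nil => rfl
  | cons d l ih => rw [jv, mv_ell, sub_sub, ih, vs, List.map_cons]

lemma jo_eq (p : P) (l : List (Fin 6)) : jo (ell p) l = ell (p + en l) := by
  induction l generalizing p with
  | nil => simp [jo]
  | cons d l ih => rw [jo, mv_ell, vec_opp, sub_neg_eq_add, ih, en_cons, add_assoc]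

lemma je_lt (d : Fin 6) (l : List (Fin 6)) {j : ℕ} (hj : j < 1723) : ∀ i ∈ je d j l, i < 1723 := by
  induction l generalizing j with
  | nil => simp [je]
  | cons e l ih =>
    have := ih (mv_lt j e)
    have := mv_lt j e
    rw [je]
    split_ifs <;> simp_all

lemma je_iff (s x : P) (d : Fin 6) (p : P) (l : List (Fin 6))
    (h : ∀ a ∈ vs p l, n1 (a - (x + vec d)) ≤ 20) :
    ell (s - (x + vec d)) ∈ je d (ell (s - p)) l ↔ adj p l x (x + vec d) := by
  induction l generalizing p with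
  | nil => simp [je, adj]
  | cons e l ih =>
    have h1 : ∀ a ∈ vs p (e :: l), ell (s - (x + vec d)) = ell (s - a) ↔ x + vec d = a :=
      fun a ha => ⟨fun h1 => sub_right_injective (ell_inj (by
        rw [show s - (x + vec d) - (s - a) = a - (x + vec d) by abel]; exact h a ha) h1),
        fun h => by rw [h]⟩
    have h2 := ih (p + vec e) fun a ha => h a (List.mem_cons_of_mem _ ha)
    have h3 : x = p ∧ x + vec d = p + vec e ↔ e = d ∧ x + vec d = p + vec e := by
      refine and_congr_left fun h => ⟨fun h4 => ?_, fun h4 => by simpa [h4] using h⟩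
      rw [h4, add_right_inj] at h
      exact (by decide : ∀ d e, vec d = vec e → e = d) d e h
    have h4 : x + vec d = p ∧ x = p + vec e ↔ e = opp d ∧ x + vec d = p := by
      rw [and_comm]
      refine and_congr_left fun h => ⟨fun h4 => ?_, fun h4 => by rw [h4, vec_opp, ← h]; abel⟩
      rw [h4, add_assoc, add_eq_left] at h
      exact (by decide : ∀ d e, vec e + vec d = 0 → e = opp d) d e h
    have h5 : ∀ d : Fin 6, d ≠ opp d := by decide
    rw [je, adj, h3, h4, mv_ell, sub_sub, ← h2]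
    split_ifs with h6 h7
    · rw [List.mem_cons, h1 _ (List.mem_cons_of_mem _ (head_mem _ _))]
      simp [h6, h5]
    · rw [List.mem_cons, h1 _ (head_mem _ _)]
      simp [h7, (h5 d).symm]
    · simp [h6, h7]

lemma ell_zero : ell 0 = 0 := rfl

lemma cfg_ok (A : List (Fin 6)) : (cfg A).ok := by
  refine ⟨?_, fun j hj => ?_, fun d => je_lt d A (by norm_num)⟩
  · exact (jo_eq 0 A).trans_lt (ell_lt _)
  · rw [show (cfg A).v = _ from jv_eq 0 0 A] at hj
    obtain ⟨a, -, rfl⟩ := List.mem_map.1 hj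
    exact ell_lt _

/-- The value of the search in a lane. -/
noncomputable def sv (c : Cf) (k : ℕ) : ℕ := sd (vv c k) (ee c k) (hk c k) 5 0 0

open Classical in
lemma sv_cfg {s : P} (hs : n1 s ≤ 10) {A : List (Fin 6)} (hA : A.length ≤ 5) :
    (sv (cfg A) (ell s) : ℝ) =
      27 ^ 6 * ∑ B ∈ FF, ww B * Wc s A 0 B * Hl (ell (s + en A - en B)) := by
  have h0 : ∀ a ∈ vs s A, ∀ x, n1 x ≤ 5 → n1 (a - x) ≤ 20 := fun a ha x hx => by
    have h1 := n1_vs ha
    have h2 := n1_add (a - s) s
    have h3 := n1_sub a x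
    rw [sub_add_cancel] at h2
    omega
  have h1 : ell (s - s) = 0 := by rw [sub_self, ell_zero]
  refine (sd_spec (vR := fun x => if x ∈ vs s A then 14 / 27 else 1)
    (eR := fun x y => if adj s A x y then 9 else 1) (H := fun x => Hl (ell (s + en A - x)))
    (fun x hx => ?_) (fun x d hx => ?_)
    (fun x => ?_) 5 0 0 [] le_rfl fun x _ => by simp).trans (by simp [FF, ww, Wc])
  · have : ell (s - x) ∈ jv 0 A ↔ x ∈ vs s A := by
      rw [← h1, jv_eq, List.mem_map]
      refine ⟨fun ⟨a, ha, h⟩ => ?_, fun h => ⟨x, h, rfl⟩⟩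
      rwa [sub_right_injective (ell_inj (by
        rw [show s - x - (s - a) = a - x by abel]; exact h0 a ha x hx) h.symm)]
    simp only [vv, ell_add, ← sub_eq_add_neg, cfg, this]
    split_ifs <;> norm_num
  · have := je_iff s x d s A fun a ha => h0 a ha _ hx
    rw [h1] at this
    simp only [ee, ell_add, ← sub_eq_add_neg, cfg, this]
    split_ifs <;> norm_num
  · rw [hk, show (cfg A).o = ell (0 + en A) from jo_eq 0 A, ← Nat.add_mod_mod, ell_add, ell_add]
    congr 3
    abel

lemma wt_one (p : P) (l : List (Fin 6)) : wt (fun _ => 1) (fun _ _ => 1) p l = 1 := by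
  induction l generalizing p with
  | nil => rfl
  | cons d l ih => simp [wt, ih]

lemma sv_zero (y : P) : (sv ⟨0, [], fun _ => []⟩ (ell y) : ℝ) =
    27 ^ 6 * ∑ B ∈ FF, ww B * Hl (ell (y - en B)) :=
  (sd_spec (vR := fun _ => 1) (eR := fun _ _ => 1) (H := fun x => Hl (ell (y - x)))
    (fun x _ => by simp [vv]) (fun x d _ => by simp [ee])
    (fun x => by simp only [hk, add_zero, ell_add, sub_eq_add_neg]) 5 0 0 [] le_rfl
    fun x _ => by simp).trans (by simp [FF, ww, wt_one])

lemma lane_sum {L : List (ℕ × List (Fin 6))} (hL : (L.map Prod.fst).sum ≤ 21539)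
    {G : List (Fin 6) → ℕ → ℕ} (hG : ∀ A k, G A k ≤ 27 * bd 5) (s : P) :
    bits (pack 100 1723 fun k => (L.map fun x => x.1 * G x.2 k).sum) (Nat.mul 100 (ell s)) 100 =
      (L.map fun x => x.1 * G x.2 (ell s)).sum := by
  rw [bits_eq]
  refine pack_lane (ell_lt s) fun k _ => lt_of_le_of_lt ?_ (bd_lt le_rfl)
  refine le_trans ?_ (Nat.mul_le_mul_right _ hL)
  rw [← List.sum_map_mul_right]
  exact List.sum_le_sum fun x _ => Nat.mul_le_mul_left _ (hG _ _)

lemma tot_eq (L : List (ℕ × List (Fin 6))) :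
    tot L = pack 100 1723 fun k => (L.map fun x => x.1 * sv (cfg x.2) k).sum := by
  induction L with
  | nil => exact (pack_const_zero _ _).symm
  | cons x L ih =>
    rw [tot, ih, dfs_eq (cfg_ok _) le_rfl (by norm_num), Nat.mul_eq, Nat.add_eq, pack_smul, pack_add]
    rfl

lemma totU_eq (L : List (ℕ × List (Fin 6))) : totU L = pack 100 1723 fun k =>
    (L.map fun x => x.1 * sv ⟨0, [], fun _ => []⟩ ((k + ell (en x.2)) % 1723)).sum := by
  induction L with
  | nil => exact (pack_const_zero _ _).symm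
  | cons x L ih =>
    have h1 := ell_lt (en x.2)
    have h2 := bd_lt (le_refl 5)
    rw [totU, ih, U1, dfs_eq ⟨by norm_num, by simp, by simp⟩ le_rfl (by norm_num), dbl_self,
      show jo 0 x.2 = ell (en x.2) from (jo_eq 0 _).trans (by rw [zero_add]),
      win_eq (fun i _ => (sd_le _ 5 _ _).trans_lt (by omega)) (by omega), Nat.mul_eq, Nat.add_eq,
      pack_smul, pack_add]
    rfl

end

section

/-! Reduction by symmetry and the law of the end point. -/

open Finset

/-- Five generators of the symmetry group. -/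
def gen : Fin 5 → P → P := ![fun p => (-p.1, p.2.1, p.2.2), fun p => (p.1, -p.2.1, p.2.2),
  fun p => (p.1, p.2.1, -p.2.2), fun p => (p.2.1, p.1, p.2.2), fun p => (p.1, p.2.2, p.2.1)]

/-- Their action on the steps. -/
noncomputable def sg (t : Fin 5) (d : Fin 6) : Fin 6 :=
  Fin.ofNat 6 (bits 516252360236542506412721793 (Nat.mul 3 (Nat.add (Nat.mul 6 t) d)) 3)

lemma gen_gen (t : Fin 5) (x : P) : gen t (gen t x) = x := by fin_cases t <;> simp [gen]

lemma gen_zero (t : Fin 5) : gen t 0 = 0 := by revert t; decide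

lemma gen_sy (t : Fin 5) : Sy (gen t) (sg t) := by
  refine ⟨(Function.Involutive.injective (gen_gen t)), by revert t; decide +kernel, fun x d => ?_⟩
  rw [← show gen t (vec d) = vec (sg t d) by revert t d; decide +kernel]
  fin_cases t <;> simp [gen, add_comm]

lemma n1_gen (t : Fin 5) (x : P) : n1 (gen t x) = n1 x := by
  fin_cases t <;> simp [gen, n1] <;> omega

lemma sum_gen (t : Fin 5) (Φ : List (Fin 6) → ℝ) :
    ∑ l ∈ FF, ww l * Φ l = ∑ l ∈ FF, ww l * Φ (l.map (sg t)) := by
  simpa [gen_zero, FF, ww] using (gen_sy t).sum true 5 [] 0 fun l => ww l * Φ l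

/-- The sum over the 48 images of a point. -/
def symP (f : P → ℝ) (s : P) : ℝ := sym (fun a b c => f (a, b, c)) s.1 s.2.1 s.2.2

lemma symP_gen (t : Fin 5) (f : P → ℝ) (s : P) : symP (fun x => f (gen t x)) s = symP f s := by
  fin_cases t <;> simp only [symP, sym, sgn, gen, Fin.zero_eta, Fin.mk_one, Fin.reduceFinMk,
    Matrix.cons_val, neg_neg] <;> ring

lemma symP_inv {f : P → ℝ} (h : ∀ t x, f (gen t x) = f x) (s : P) : symP f s = 48 * f s := by
  obtain ⟨x, y, z⟩ := s
  have h0 : ∀ a b c, f (-a, b, c) = f (a, b, c) := fun a b c => h 0 (a, b, c)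
  have h1 : ∀ a b c, f (a, -b, c) = f (a, b, c) := fun a b c => h 1 (a, b, c)
  have h2 : ∀ a b c, f (a, b, -c) = f (a, b, c) := fun a b c => h 2 (a, b, c)
  have h3 : ∀ a b c, f (b, a, c) = f (a, b, c) := fun a b c => h 3 (a, b, c)
  have h4 : ∀ a b c, f (a, c, b) = f (a, b, c) := fun a b c => h 4 (a, b, c)
  simp only [symP, sym, sgn, h0, h1, h2]
  rw [h3 y z x, h4 y x z, h3 x z y, h4 x y z, h3 x y z]
  ring

lemma symP_congr {f g : P → ℝ} {s : P} (h : ∀ x, n1 x = n1 s → f x = g x) :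
    symP f s = symP g s := by
  have h1 : ∀ a b c : ℤ, a.natAbs + b.natAbs + c.natAbs = n1 s → f (a, b, c) = g (a, b, c) :=
    fun a b c => h (a, b, c)
  have h2 : ∀ a b c : ℤ, a.natAbs + b.natAbs + c.natAbs = n1 s →
      sgn (fun a b c => f (a, b, c)) a b c = sgn (fun a b c => g (a, b, c)) a b c := fun a b c h => by
    simp (disch := simpa only [Int.natAbs_neg] using h) only [sgn, h1]
  simp (disch := unfold n1; omega) only [symP, sym, h2]

lemma symP_sum {ι : Type*} (S : Finset ι) (c : ι → ℝ) (f : ι → P → ℝ) (s : P) :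
    symP (fun x => ∑ i ∈ S, c i * f i x) s = ∑ i ∈ S, c i * symP (f i) s := by
  simp only [symP, sym, sgn, mul_add, sum_add_distrib]

lemma symP_list {ι : Type*} (L : List ι) (c : ι → ℝ) (f : ι → P → ℝ) (s : P) :
    symP (fun x => (L.map fun i => c i * f i x).sum) s = (L.map fun i => c i * symP (f i) s).sum := by
  simp only [symP, sym, sgn, mul_add, List.sum_map_add]

lemma wlog_sorted {Q : P → Prop} (h : ∀ t x, Q x → Q (gen t x))
    (h0 : ∀ x y z : ℕ, x ≤ y → y ≤ z → Q (x, y, z)) (s : P) : Q s := by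
  have h3 : ∀ a b c, Q (a, b, c) → Q (b, a, c) := fun a b c => h 3 (a, b, c)
  have h4 : ∀ a b c, Q (a, b, c) → Q (a, c, b) := fun a b c => h 4 (a, b, c)
  have h5 : ∀ x y z : ℕ, Q (x, y, z) := fun x y z => by
    rcases le_total x y with a | a <;> rcases le_total y z with b | b <;>
      rcases le_total x z with c | c
    exacts [h0 _ _ _ a b, h0 _ _ _ a b, h4 _ _ _ (h0 _ _ _ c b), h4 _ _ _ (h3 _ _ _ (h0 _ _ _ c a)),
      h3 _ _ _ (h0 _ _ _ a c), h3 _ _ _ (h4 _ _ _ (h0 _ _ _ b c)),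
      h3 _ _ _ (h4 _ _ _ (h3 _ _ _ (h0 _ _ _ b a))), h3 _ _ _ (h4 _ _ _ (h3 _ _ _ (h0 _ _ _ b a)))]
  obtain ⟨x, y, z⟩ := s
  have h6 : ∀ x y : ℕ, Q (x, y, z) := fun x y => by
    obtain ⟨n, rfl | rfl⟩ := z.eq_nat_or_neg
    exacts [h5 _ _ _, h 2 _ (h5 _ _ _)]
  have h7 : ∀ x : ℕ, Q (x, y, z) := fun x => by
    obtain ⟨n, rfl | rfl⟩ := y.eq_nat_or_neg
    exacts [h6 _ _, h 1 _ (h6 _ _)]
  obtain ⟨n, rfl | rfl⟩ := x.eq_nat_or_neg
  exacts [h7 _, h 0 _ (h7 _)]

/-- The sum over a family of walks as a program on residues. -/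
noncomputable def sN (b : Bool) (f : ℕ) : ℕ → ℕ → (List (Fin 6) → ℕ → ℕ → ℕ) → ℕ :=
  Nat.rec (fun q _ Φ => Φ [] q 0) (fun f ih q vis Φ => (fun g => stp g q vis 5 (stp g q vis 4
    (stp g q vis 3 (stp g q vis 2 (stp g q vis 1 (stp g q vis 0 (Φ [] q (Nat.succ f))))))))
      fun d r => ih r (Bool.rec 0 (Nat.lor vis (Nat.shiftLeft 1 q)) b) fun l => Φ (d :: l)) f

lemma stp_val (g : Fin 6 → ℕ → ℕ) (q vis : ℕ) (d : Fin 6) (a : ℕ) :
    stp g q vis d a = a + if vis.testBit (mv q d) then 0 else g d (mv q d) := by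
  rw [stp, frc_eq]
  cases vis.testBit (mv q d) <;> rfl

lemma sN_aux (b : Bool) (f : ℕ) (p : P) (vis : ℕ) (L : List P) (hp : n1 p + f ≤ 5)
    (hL : ∀ x, n1 x ≤ 5 → (vis.testBit (ell (-x)) = true ↔ b = true ∧ x ∈ L))
    (Φ : List (Fin 6) → ℕ → ℕ → ℕ) :
    ∑ l ∈ fam b f L p, Φ l (ell (-(p + en l))) (f - l.length) = sN b f (ell (-p)) vis Φ := by
  induction f generalizing p vis L Φ with
  | zero => simp [fam_zero, sN]
  | succ f ih =>
    have h1 : ∀ d, n1 (p + vec d) + f ≤ 5 := fun d => by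
      have := n1_add p (vec d); rw [n1_vec] at this; omega
    have h2 : sN b (f + 1) (ell (-p)) vis Φ = Φ [] (ell (-p)) (f + 1) + ∑ d,
        if vis.testBit (mv (ell (-p)) d) then 0 else sN b f (mv (ell (-p)) d)
          (Bool.rec 0 (vis ||| 1 <<< ell (-p)) b) fun l => Φ (d :: l) := by
      simp only [Fin.sum_univ_six, ← add_assoc]
      simp only [← stp_val fun d r => sN b f r (Bool.rec 0 (vis ||| 1 <<< ell (-p)) b)
        fun l => Φ (d :: l)]
      rfl
    rw [sum_fam, h2, en_nil, add_zero]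
    refine congrArg _ (sum_congr rfl fun d _ => ?_)
    rw [mv_ell, ← neg_add', ← ih _ _ (p :: L) (h1 d) fun x hx => ?_]
    · simp only [hL _ (by have := h1 d; omega : n1 (p + vec d) ≤ 5), en_cons, add_assoc,
        List.length_cons, Nat.add_sub_add_right]
    · cases b
      · simp
      · rw [Nat.one_shiftLeft, Nat.testBit_or, Bool.or_eq_true, hL x hx, Nat.testBit_two_pow,
          decide_eq_true_iff, List.mem_cons, or_comm, and_iff_right rfl, and_iff_right rfl]
        refine or_congr_left ⟨fun h => neg_injective (ell_inj ?_ h).symm, fun h => by rw [h]⟩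
        have := n1_sub x p
        rw [show -p - -x = x - p by abel]
        omega

lemma shl (w c : ℕ) : w * 2 ^ (16 * c) = Nat.shiftLeft w (Nat.mul 16 c) :=
  (Nat.shiftLeft_eq w _).symm

lemma sN_eq (b : Bool) (Φ : List (Fin 6) → ℕ → ℕ → ℕ) :
    ∑ l ∈ fam b 5 [] 0, Φ l (ell (-en l)) (5 - l.length) = sN b 5 0 0 Φ := by
  simpa [ell_zero] using sN_aux b 5 0 0 [] le_rfl (by simp) Φ

/-- Apply a generator. -/
noncomputable def mp (t : Fin 5) (l : List (Fin 6)) : List (Fin 6) :=
  List.rec [] (fun a _ ih => sg t a :: ih) l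

lemma mp_eq (t : Fin 5) (l : List (Fin 6)) : mp t l = l.map (sg t) := by
  induction l with
  | nil => rfl
  | cons d l ih => exact congrArg _ ih

/-- Apply a word in the generators. -/
noncomputable def apw (w : List (Fin 5)) : List (Fin 6) → List (Fin 6) :=
  List.rec id (fun t _ ih l => ih (mp t l)) w

/-- The words that move a step to the next free axis. -/
def wd : ℕ → List (Fin 5)
  | 0 => [0]
  | 1 => [3]
  | 2 => [1, 3]
  | 3 => [4, 3]
  | 4 => [2, 4, 3]
  | 6 => [1]
  | 7 => [4]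
  | 8 => [2, 4]
  | 12 => [2]
  | _ => []

/-- Move the first step that is at least `m` to `m`. -/
noncomputable def mvto (m : ℕ) (l : List (Fin 6)) : List (Fin 6) :=
  Nat.rec l (fun k _ => apw (wd k) l)
    (List.rec 0 (fun d _ ih => Bool.rec ih (Nat.add (Nat.mul 2 m) d) (Nat.ble m d)) l : ℕ)

/-- The normal form of a walk. -/
noncomputable def canon (l : List (Fin 6)) : List (Fin 6) := mvto 4 (mvto 2 (mvto 0 l))

/-- A number for a walk. -/
noncomputable def code (l : List (Fin 6)) : ℕ :=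
  List.rec 0 (fun d _ ih => Nat.succ (Nat.add (Nat.mul 7 ih) d)) l

lemma code_cons (d : Fin 6) (l : List (Fin 6)) : code (d :: l) = 7 * code l + d + 1 := rfl

lemma code_inj : Function.Injective code := by
  intro l
  induction l with
  | nil =>
    rintro (_ | ⟨e, m⟩) h
    exacts [rfl, absurd h.symm (Nat.succ_ne_zero _)]
  | cons d l ih =>
    rintro (_ | ⟨e, m⟩) h
    · exact absurd h (Nat.succ_ne_zero _)
    · rw [code_cons, code_cons] at h
      rw [ih (by omega : code l = code m), Fin.ext (by omega : d.val = e.val)]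

lemma sum_ww : ∑ b ∈ FF, ww b = 21539 :=
  (sN_eq true fun _ _ f => Nat.pow 5 f).trans (by decide +kernel)

lemma red {Φ : List (Fin 6) → ℝ} (h : ∀ t l, Φ (l.map (sg t)) = Φ l) :
    ∑ A ∈ FF, ww A * Φ A = (chunks.flatten.map fun x => x.1 * Φ x.2).sum := by
  have h1 : ∀ w l, Φ (apw w l) = Φ l := fun w => by
    induction w with
    | nil => exact fun _ => rfl
    | cons t w ih => exact fun l => (ih _).trans (mp_eq t l ▸ h t l)
  have h2 : ∀ m l, Φ (mvto m l) = Φ l := fun m l => by
    unfold mvto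
    generalize (List.rec 0 _ l : ℕ) = k
    cases k
    exacts [rfl, h1 _ _]
  have := kron (s := FF) (t := univ) (w := ww) (c := fun l => code (canon l))
    (w' := fun i : Fin chunks.flatten.length => chunks.flatten[i].1)
    (c' := fun i => code chunks.flatten[i].2) (W := 16) (by rw [sum_ww]; norm_num)
    ((Fin.sum_univ_fun_getElem _ Prod.fst).trans_lt (by decide +kernel))
    (by
      simp only [shl]
      exact (sN_eq true fun l _ f => Nat.shiftLeft (Nat.pow 5 f) (Nat.mul 16 (code (canon l)))).trans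
        (Eq.trans (by decide +kernel) (Fin.sum_univ_fun_getElem chunks.flatten
          fun x => Nat.shiftLeft x.1 (Nat.mul 16 (code x.2))).symm))
    fun k => Φ (Function.invFun code k)
  simp only [Function.leftInverse_invFun code_inj _, canon, h2] at this
  exact this.trans (Fin.sum_univ_fun_getElem chunks.flatten fun x => x.1 * Φ x.2)

/-- The Horner scheme for the end point law. -/
noncomputable def HR (f : P → ℝ) : ℕ → P → ℝ
  | 0, y => f y
  | j + 1, y => co j * f y + ∑ d, HR f j (y + vec d)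

/-- The coefficients from the top. -/
def cq : ℕ → ℕ
  | 0 => 1
  | j + 1 => co j

lemma HR_eq (f : P → ℝ) (j : ℕ) (vis : List P) (p y : P) :
    HR f j y = ∑ l ∈ fam false j vis p, cq (j - l.length) * f (y + en l) := by
  induction j generalizing vis p y with
  | zero => simp [HR, fam_zero, cq]
  | succ j ih =>
    rw [HR, sum_fam]
    refine congrArg₂ _ (by simp [cq]) (sum_congr rfl fun d _ => ?_)
    simp [ih (p :: vis) (p + vec d), add_assoc]

lemma sum_end (f : P → ℝ) (y : P) : ∑ A ∈ FF, ww A * f (y + en A) = HR f 5 y := by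
  have h1 : ∀ b, ∀ l ∈ fam b 5 [] 0, Function.invFunOn (fun x => ell (-x)) {x | n1 x ≤ 5}
      (ell (-en l)) = en l := fun b l hl => Set.InjOn.leftInvOn_invFunOn (f := fun x => ell (-x))
    (fun x (hx : n1 x ≤ 5) z (hz : n1 z ≤ 5) h => neg_injective (ell_inj (by
      have := n1_sub z x
      rw [show -x - -z = z - x by abel]
      omega) h)) ((n1_en l).trans (fam_len hl))
  have := kron (s := FF) (t := fam false 5 [] 0) (w := ww) (c := fun l => ell (-en l))
    (w' := fun l => cq (5 - l.length)) (c' := fun l => ell (-en l)) (W := 16)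
    (by rw [sum_ww]; norm_num) ((sN_eq false fun _ _ f => cq f).trans_lt (by decide +kernel))
    (by
      simp only [shl]
      exact (sN_eq true fun _ q f => Nat.shiftLeft (Nat.pow 5 f) (Nat.mul 16 q)).trans (Eq.trans
        (by decide +kernel) (sN_eq false fun _ q f => Nat.shiftLeft (cq f) (Nat.mul 16 q)).symm))
    fun k => f (y + Function.invFunOn (fun x => ell (-x)) {x | n1 x ≤ 5} k)
  rw [HR_eq f 5 [] 0]
  refine Eq.trans (sum_congr rfl fun l hl => ?_) (this.trans (sum_congr rfl fun l hl => ?_))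
  · rw [h1 true l hl]
  · rw [h1 false l hl]

lemma sum_end' (f : P → ℝ) (y : P) : ∑ B ∈ FF, ww B * f (y - en B) = HR f 5 y := by
  have h : Sy Neg.neg opp := ⟨neg_injective, by decide, fun x d => by rw [vec_opp, neg_add]⟩
  have h1 : ∀ l, en (l.map opp) = -en l := fun l => by simpa using (h.en 0 l).symm
  rw [← sum_end]
  simpa [FF, ww, h1] using h.sum true 5 [] 0 fun l => ww l * f (y - en l)

lemma HR_le {f : P → ℝ} {j : ℕ} {y : P} (h : ∀ x, n1 (x - y) < j → ∑ d, f (x + vec d) ≤ 6 * f x) :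
    HR f j y ≤ HR (fun _ => 1) j 0 * f y := by
  have h0 : ∀ j y, 0 ≤ HR (fun _ => 1) j y ∧ HR (fun _ => 1) j y = HR (fun _ => 1) j 0 := fun j => by
    induction j with
    | zero => simp [HR]
    | succ j ih => exact fun y => ⟨add_nonneg (by simp) (sum_nonneg fun d _ => (ih _).1), by
        simp only [HR, (ih (_ + _)).2]⟩
  induction j generalizing y with
  | zero => simp [HR]
  | succ j ih =>
    have h1 := mul_le_mul_of_nonneg_left (h y (by simp [n1])) (h0 j 0).1
    have h2 := sum_le_sum (s := univ) fun d _ => ih (y := y + vec d) fun x hx => h x (by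
      have := n1_add (x - (y + vec d)) (vec d)
      rw [n1_vec, show x - (y + vec d) + vec d = x - y by abel] at this
      omega)
    simp only [HR, (h0 j (_ + _)).2, ← mul_sum, sum_const, card_univ, Fintype.card_fin,
      nsmul_eq_mul] at h2 ⊢
    push_cast
    linarith

lemma HR_one : HR (fun _ => 1) 5 0 = 21539 := by
  rw [← sum_end]
  simp [← Nat.cast_sum, sum_ww]

/-- A function of the absolute values of the coordinates. -/
def ab (g : ℕ → ℕ → ℕ → ℕ) (y : P) : ℝ := g y.1.natAbs y.2.1.natAbs y.2.2.natAbs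

lemma abs_pair (φ : ℕ → ℝ) (x : ℤ) : φ (x + 1).natAbs + φ (x + -1).natAbs =
    φ (x.natAbs + 1) + φ (pm x.natAbs) := by
  obtain ⟨_ | n, rfl | rfl⟩ := x.eq_nat_or_neg
  · rfl
  · rfl
  · rw [Int.natAbs_natCast, show pm (n + 1) = n from rfl]
    exact congrArg₂ _ (congrArg _ (by omega)) (congrArg _ (by omega))
  · rw [Int.natAbs_neg, Int.natAbs_natCast, show pm (n + 1) = n from rfl, add_comm]
    exact congrArg₂ _ (congrArg _ (by omega)) (congrArg _ (by omega))

lemma nsum_eq (g : ℕ → ℕ → ℕ → ℕ) (a : ℕ) (y : P) :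
    (nsum g y.1.natAbs y.2.1.natAbs y.2.2.natAbs a : ℝ) = a + ∑ d, ab g (y + vec d) := by
  have h1 := abs_pair (fun t => g t y.2.1.natAbs y.2.2.natAbs) y.1
  have h2 := abs_pair (fun t => g y.1.natAbs t y.2.2.natAbs) y.2.1
  have h3 := abs_pair (fun t => g y.1.natAbs y.2.1.natAbs t) y.2.2
  simp only [nsum, frc_eq, Nat.add_eq, Fin.sum_univ_six, ab, vec, Matrix.cons_val, Prod.fst_add,
    Prod.snd_add, add_zero]
  push_cast
  linarith

lemma HR_ab (g : ℕ → ℕ → ℕ → ℕ) (j : ℕ) : HR (ab g) j = ab (hr g j) := by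
  induction j with
  | zero => rfl
  | succ j ih =>
    ext y
    rw [HR, ih]
    exact ((nsum_eq (hr g j) _ y).trans (by simp [ab])).symm

end

section

/-! The test function is superharmonic away from the origin. -/

open Finset

lemma inv_sqrt_le {δ : ℝ} (h1 : -1 / 10 ≤ δ) (h2 : δ ≤ 1 / 10) :
    1 / √(1 + δ) ≤ 1 - δ / 2 + 3 * δ ^ 2 / 8 - 5 * δ ^ 3 / 16 + 5 * δ ^ 4 / 16 := by
  have h3 : δ ^ 2 ≤ 1 / 100 := by nlinarith
  have h4 := sq_nonneg δ
  have h5 : 0 ≤ 20 + 136 * δ - 55 * δ ^ 2 + 35 * δ ^ 3 - 25 * δ ^ 4 + 25 * δ ^ 5 := by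
    nlinarith [mul_nonneg h4 (sub_nonneg.2 h1), mul_nonneg h4 (sub_nonneg.2 h3),
      mul_nonneg (mul_nonneg h4 h4) (sub_nonneg.2 h1)]
  set p := 1 - δ / 2 + 3 * δ ^ 2 / 8 - 5 * δ ^ 3 / 16 + 5 * δ ^ 4 / 16 with hp
  have h6 : 0 < p := by nlinarith [mul_nonneg h4 (sub_nonneg.2 h2), mul_nonneg h4 h4]
  have h7 : 1 ≤ p ^ 2 * (1 + δ) := by
    rw [hp]
    nlinarith [mul_nonneg (mul_nonneg h4 h4) h5]
  rw [one_div_le (Real.sqrt_pos.2 (by linarith)) h6]
  refine Real.le_sqrt_of_sq_le ?_
  rwa [div_pow, one_pow, div_le_iff₀' (by positivity)]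

lemma inv_sqrt_add {R u : ℝ} (hR : 0 < R) (h1 : -R ≤ 10 * u) (h2 : 10 * u ≤ R) :
    1 / √(R + u) ≤ 1 / √R * (1 - (u / R) / 2 + 3 * (u / R) ^ 2 / 8 - 5 * (u / R) ^ 3 / 16 +
      5 * (u / R) ^ 4 / 16) := by
  rw [show R + u = R * (1 + u / R) by field_simp, Real.sqrt_mul hR.le, ← one_div_mul_one_div]
  exact mul_le_mul_of_nonneg_left (inv_sqrt_le (by rw [le_div_iff₀ hR]; linarith)
    (by rw [div_le_iff₀ hR]; linarith)) (by positivity)

lemma six {a b c R : ℝ} (hR : R = a ^ 2 + b ^ 2 + c ^ 2 + 2) (h : 443 ≤ R) :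
    1 / √(R + (1 + 2 * a)) + 1 / √(R + (1 - 2 * a)) + 1 / √(R + (1 + 2 * b)) +
      1 / √(R + (1 - 2 * b)) + 1 / √(R + (1 + 2 * c)) + 1 / √(R + (1 - 2 * c)) ≤ 6 * (1 / √R) := by
  have h0 : 0 < R := by linarith
  have h1 : ∀ x : ℝ, x ^ 2 + 2 ≤ R → 1 / √(R + (1 + 2 * x)) + 1 / √(R + (1 - 2 * x)) ≤ 1 / √R *
      (2 + (-R ^ 3 + 3 / 8 * (2 + 8 * x ^ 2) * R ^ 2 - 5 / 16 * (2 + 24 * x ^ 2) * R +
        5 / 16 * (2 + 48 * x ^ 2 + 32 * x ^ 4)) / R ^ 4) := fun x hx => by
    have e1 := sq_nonneg (x - 21)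
    have e2 := sq_nonneg (x + 21)
    refine (add_le_add (inv_sqrt_add h0 (by nlinarith) (by nlinarith))
      (inv_sqrt_add h0 (by nlinarith) (by nlinarith))).trans_eq ?_
    field_simp
    ring
  have ha := sq_nonneg a
  have hb := sq_nonneg b
  have hc := sq_nonneg c
  have h2 := add_le_add (add_le_add (h1 a (by linarith)) (h1 b (by linarith))) (h1 c (by linarith))
  rw [← mul_add, ← mul_add] at h2
  refine le_trans (le_of_eq (by ring)) (h2.trans ((mul_le_mul_of_nonneg_left ?_
    (by positivity)).trans_eq (mul_comm _ _)))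
  have h3 : a ^ 4 + b ^ 4 + c ^ 4 ≤ (R - 2) ^ 2 := by
    rw [hR]
    nlinarith [mul_nonneg ha hb, mul_nonneg ha hc, mul_nonneg hb hc]
  rw [show ∀ x y z : ℝ, 2 + x / R ^ 4 + (2 + y / R ^ 4) + (2 + z / R ^ 4) = 6 + (x + y + z) / R ^ 4
    from fun x y z => by ring, add_le_iff_nonpos_right]
  refine div_nonpos_of_nonpos_of_nonneg ?_ (by positivity)
  calc _ = -45 / 4 * R ^ 2 + 225 / 8 * R - 225 / 8 + 10 * (a ^ 4 + b ^ 4 + c ^ 4) := by
        rw [hR]; ring
    _ ≤ 0 := by nlinarith

/-- The test function far from the origin. -/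
noncomputable def Fo (y : P) : ℝ := 1 + 12 * (1 / √(y.1 ^ 2 + y.2.1 ^ 2 + y.2.2 ^ 2 + 2))

/-- The test function. -/
noncomputable def hh (y : P) : ℝ :=
  if y.1.natAbs ≤ 20 ∧ y.2.1.natAbs ≤ 20 ∧ y.2.2.natAbs ≤ 20 then ab Tn y / 2 ^ 20 else Fo y

lemma Tn_gen (t : Fin 5) (y : P) : ab Tn (gen t y) = ab Tn y := by
  fin_cases t <;> simp [ab, gen, Tn, min_comm, max_comm, min_left_comm, max_left_comm, add_comm,
    add_left_comm, add_assoc]

lemma Fo_gen (t : Fin 5) (y : P) : Fo (gen t y) = Fo y := by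
  fin_cases t <;> simp [Fo, gen, add_comm, add_left_comm, add_assoc]

lemma hh_gen (t : Fin 5) (y : P) : hh (gen t y) = hh y := by
  rw [hh, hh, Tn_gen, Fo_gen]
  refine if_congr ?_ rfl rfl
  fin_cases t <;> simp [gen] <;> omega

lemma Tn_ge (x y z : ℕ) : 2 ^ 20 ≤ Tn x y z := Nat.le_add_right _ _

lemma hh_one (y : P) : 1 ≤ hh y := by
  unfold hh
  split_ifs
  · rw [one_le_div (by norm_num), ab]
    exact_mod_cast Tn_ge _ _ _
  · exact le_add_of_nonneg_right (by positivity)

lemma shell : (∀ y < 22, ∀ x < 22,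
    144 * 2 ^ 40 ≤ (Tn x y 21 - 2 ^ 20) ^ 2 * (x ^ 2 + y ^ 2 + 21 ^ 2 + 2)) ∧
    (∀ y < 21, ∀ x < 21, (Tn x y 20 - 2 ^ 20) ^ 2 * (x ^ 2 + y ^ 2 + 20 ^ 2 + 2) ≤ 144 * 2 ^ 40) ∧
    ∀ z < 21, ∀ y < z + 1, ∀ x < y + 1, 2 ≤ x + y + z → nsum Tn x y z 0 ≤ 6 * Tn x y z :=
  ⟨by decide +kernel, by decide +kernel, by decide +kernel⟩

lemma Fo_eq (x y z : ℕ) : Fo (x, y, z) = 1 + 12 / √((x ^ 2 + y ^ 2 + z ^ 2 + 2 : ℕ) : ℝ) := by
  simp [Fo, div_eq_mul_inv]

lemma cmp {T n : ℕ} (hT : 2 ^ 20 ≤ T) (hn : 0 < n) :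
    (144 * 2 ^ 40 ≤ (T - 2 ^ 20) ^ 2 * n → 1 + 12 / √(n : ℝ) ≤ T / 2 ^ 20) ∧
    ((T - 2 ^ 20) ^ 2 * n ≤ 144 * 2 ^ 40 → (T : ℝ) / 2 ^ 20 ≤ 1 + 12 / √(n : ℝ)) := by
  obtain ⟨u, rfl⟩ := Nat.exists_eq_add_of_le hT
  have h0 : (0 : ℝ) < n := by exact_mod_cast hn
  have h1 := Real.sqrt_pos.2 h0
  have h2 : ((2 ^ 20 + u : ℕ) : ℝ) / 2 ^ 20 = 1 + u * √(n : ℝ) / 2 ^ 20 / √(n : ℝ) := by
    push_cast; field_simp; norm_num
  have h3 : (u * √(n : ℝ)) ^ 2 = (u ^ 2 * n : ℕ) := by
    rw [mul_pow, Real.sq_sqrt h0.le]; push_cast; rfl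
  rw [h2, Nat.add_sub_cancel_left, add_le_add_iff_left, add_le_add_iff_left,
    div_le_div_iff_of_pos_right h1, div_le_div_iff_of_pos_right h1, le_div_iff₀ (by norm_num),
    div_le_iff₀ (by norm_num), ← sq_le_sq₀ (b := u * √(n : ℝ)) (by norm_num) (by positivity),
    ← sq_le_sq₀ (a := u * √(n : ℝ)) (by positivity) (by norm_num), h3,
    show ((12 : ℝ) * 2 ^ 20) ^ 2 = (144 * 2 ^ 40 : ℕ) by norm_num, Nat.cast_le, Nat.cast_le]
  exact ⟨id, id⟩

lemma hh_up (w : P) : w.1.natAbs ≤ 21 ∧ w.2.1.natAbs ≤ 21 ∧ w.2.2.natAbs ≤ 21 →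
    hh w ≤ ab Tn w / 2 ^ 20 := by
  induction w using wlog_sorted with
  | h t x ih =>
    rw [hh_gen, Tn_gen]
    refine fun h => ih ?_
    fin_cases t <;> simp [gen] at h <;> omega
  | h0 x y z h1 h2 =>
    intro h
    unfold hh
    split_ifs with h3
    · rfl
    simp only [Int.natAbs_natCast] at h h3
    obtain rfl : z = 21 := by omega
    rw [Fo_eq]
    exact (cmp (Tn_ge _ _ _) (by omega)).1 (shell.1 y (by omega) x (by omega))

lemma hh_lo (w : P) : 20 ≤ w.1.natAbs ∨ 20 ≤ w.2.1.natAbs ∨ 20 ≤ w.2.2.natAbs → hh w ≤ Fo w := by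
  induction w using wlog_sorted with
  | h t x ih =>
    rw [hh_gen, Fo_gen]
    refine fun h => ih ?_
    fin_cases t <;> simp [gen] at h <;> omega
  | h0 x y z h1 h2 =>
    intro h
    unfold hh
    split_ifs with h3
    · simp only [Int.natAbs_natCast] at h h3
      obtain rfl : z = 20 := by omega
      rw [Fo_eq]
      exact (cmp (Tn_ge _ _ _) (by omega)).2 (shell.2.1 y (by omega) x (by omega))
    · rfl

lemma super (w : P) : 2 ≤ n1 w → ∑ d, hh (w + vec d) ≤ 6 * hh w := by
  induction w using wlog_sorted with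
  | h t x ih =>
    rw [hh_gen, n1_gen, ← (gen_sy t).bij.sum_comp]
    simpa only [← (gen_sy t).step, hh_gen] using ih
  | h0 x y z h1 h2 =>
    intro h
    have h3 : ∀ d, ((vec d).1.natAbs ≤ 1 ∧ (vec d).2.1.natAbs ≤ 1 ∧ (vec d).2.2.natAbs ≤ 1) := by
      decide
    rcases le_or_gt z 20 with hz | hz
    · refine (sum_le_sum fun d _ => hh_up _ (by
        have := h3 d
        simp only [Prod.fst_add, Prod.snd_add]
        omega)).trans ?_
      have h4 := nsum_eq Tn 0 (x, y, z)
      have h5 := (Nat.cast_le (α := ℝ)).2 (shell.2.2 z (by omega) y (by omega) x (by omega)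
        (by simpa [n1] using h))
      rw [← sum_div, hh, if_pos (by simp only [Int.natAbs_natCast]; omega)]
      simp only [Int.natAbs_natCast, ab] at h4 ⊢
      push_cast at h4 h5
      linarith
    · refine (sum_le_sum fun d _ => hh_lo _ (by
        have := h3 d
        simp only [Prod.fst_add, Prod.snd_add]
        omega)).trans ?_
      have h4 : (21 : ℝ) ≤ z := by exact_mod_cast hz
      have h5 := six (a := x) (b := y) (c := z) rfl (by nlinarith [sq_nonneg (x : ℝ), sq_nonneg (y : ℝ)])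
      rw [hh, if_neg (by simp only [Int.natAbs_natCast]; omega)]
      simp only [Fo, Fin.sum_univ_six, vec, Matrix.cons_val, Prod.fst_add, Prod.snd_add]
      push_cast
      ring_nf at h5 ⊢
      linarith

end

section

/-! The first moment bound in dimension at most three. -/

open MeasureTheory ProbabilityTheory Finset Filter Topology
open Pool.Agent.Work.MP_e5a0e3_pr.Hedge

variable {d k : ℕ}

/-- The unit steps. -/
def dir (a : Fin d × Bool) : Fin d → ℤ := fun i => if i = a.1 then (if a.2 then 1 else -1) else 0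

lemma nbrs_dir {x y : Fin d → ℤ} (h : y ∈ nbrs x) : ∃ a, y = x + dir a := by
  obtain ⟨i, rfl | rfl⟩ := h
  · exact ⟨(i, true), by ext j; simp [dir, Pi.single_apply]⟩
  · refine ⟨(i, false), funext fun j => ?_⟩
    simp only [dir, Pi.single_apply, Pi.sub_apply, Pi.add_apply]
    split_ifs <;> simp_all [sub_eq_add_neg]

lemma nbrs_symm {x y : Fin d → ℤ} (h : y ∈ nbrs x) : x ∈ nbrs y := by
  obtain ⟨i, rfl | rfl⟩ := h
  exacts [⟨i, Or.inr (by simp)⟩, ⟨i, Or.inl (by simp)⟩]

/-- The three steps that can follow the step `a`. -/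
def ext3 (a : Fin d × Bool) : Finset ((Fin d × Bool) × (Fin d × Bool) × (Fin d × Bool)) :=
  univ.filter fun t => dir a + dir t.1 ≠ 0 ∧ dir t.1 + dir t.2.1 ≠ 0 ∧ dir t.2.1 + dir t.2.2 ≠ 0 ∧
    dir a + dir t.1 + dir t.2.1 + dir t.2.2 ≠ 0

/-- The continuations by `m` blocks of three steps. -/
def fm : ℕ → (Fin d → ℤ) → Fin d × Bool → Finset (List (Fin d → ℤ))
  | 0, _, _ => {[]}
  | m + 1, w, a => (ext3 a).biUnion fun t => (fm m (w + dir t.1 + dir t.2.1 + dir t.2.2) t.2.2).image
      fun l => (w + dir t.1) :: (w + dir t.1 + dir t.2.1) :: (w + dir t.1 + dir t.2.1 + dir t.2.2) :: l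

lemma card_fm {c : ℕ} (hc : ∀ a : Fin d × Bool, #(ext3 a) ≤ c) (m : ℕ) (w : Fin d → ℤ)
    (a : Fin d × Bool) : #(fm m w a) ≤ c ^ m := by
  induction m generalizing w a with
  | zero => rfl
  | succ m ih =>
    rw [pow_succ']
    exact (card_biUnion_le_card_mul _ _ _ fun t _ => card_image_le.trans (ih _ _)).trans
      (Nat.mul_le_mul_right _ (hc a))

lemma mem_fm (m : ℕ) (v : Fin d → ℤ) (a : Fin d × Bool) (l : List (Fin d → ℤ))
    (hl : l.length = 3 * m) (h1 : (v :: (v + dir a) :: l).Nodup)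
    (h2 : List.IsChain (fun x y => y ∈ nbrs x) ((v + dir a) :: l)) : l ∈ fm m (v + dir a) a := by
  induction m generalizing v a l with
  | zero => simpa [fm] using hl
  | succ m ih =>
    obtain _ | ⟨x, _ | ⟨y, _ | ⟨z, l⟩⟩⟩ := l <;> simp only [List.length_cons, List.length_nil] at hl <;>
      try omega
    simp only [List.isChain_cons_cons] at h2
    obtain ⟨b, rfl⟩ := nbrs_dir h2.1
    obtain ⟨c, rfl⟩ := nbrs_dir h2.2.1
    obtain ⟨e, rfl⟩ := nbrs_dir h2.2.2.1
    refine mem_biUnion.2 ⟨(b, c, e), mem_filter.2 ⟨mem_univ _, ?_⟩, mem_image_of_mem _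
      (ih _ e l (by omega) h1.of_cons.of_cons.of_cons h2.2.2.2)⟩
    simp only [List.nodup_cons, List.mem_cons, not_or, add_assoc, left_eq_add, add_right_inj] at h1 ⊢
    tauto

/-- The neighbours that a path needs at each vertex. -/
def TT (v : Fin d → ℤ) : List (Fin d → ℤ) → (Fin d → ℤ) → Finset (Fin d → ℤ)
  | [] => fun _ => ∅
  | w :: l => Function.update (TT w l) w (insert v (l.take 1).toFinset)

lemma TT_sub {N : (Fin d → ℤ) → Finset (Fin d → ℤ)} {v : Fin d → ℤ} {l : List (Fin d → ℤ)}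
    (h : List.IsChain (IsOpenEdge N) (v :: l)) (x : Fin d → ℤ) : TT v l x ⊆ N x := by
  induction l generalizing v with
  | nil => exact empty_subset _
  | cons w l ih =>
    rw [List.isChain_cons_cons] at h
    rcases eq_or_ne x w with rfl | hx
    · rw [TT, Function.update_self, insert_subset_iff]
      refine ⟨h.1.2.2, ?_⟩
      cases l with
      | nil => simp
      | cons y l => simpa using (List.isChain_cons_cons.1 h.2).1.2.1
    · rw [TT, Function.update_of_ne hx]
      exact ih h.2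

lemma site_two (hk : k ≤ 2 * d) {w x y : Fin d → ℤ} (hx : x ∈ nbrs w) (hy : y ∈ nbrs w)
    (h : x ≠ y) : (site k w).real {s | {x, y} ⊆ s} ≤ ff d k 2 := by
  rcases le_or_gt 2 k with h2 | h2
  · rw [site_val hk w (by simp [insert_subset_iff, mem_nb, hx, hy]) (card_le_two.trans h2),
      card_pair h]
  · rw [Measure.real, site, site_eq, (uniformOn_eq_zero_iff (finite_toSet _)).2]
    · exact div_nonneg (by simp) (by simp)
    · refine Set.eq_empty_of_forall_notMem fun s ⟨h3, h4⟩ => ?_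
      have := card_le_card h4
      rw [card_pair h, (mem_powersetCard.1 h3).2] at this
      omega

lemma TT_prob (hk : k ≤ 2 * d) {v : Fin d → ℤ} {l : List (Fin d → ℤ)} (h1 : (v :: l).Nodup)
    (h2 : List.IsChain (fun x y => y ∈ nbrs x) (v :: l)) :
    ∏ x ∈ l.toFinset, (site k x).real {s | TT v l x ⊆ s} ≤ ff d k 2 ^ (l.length - 1) := by
  have := site_prob hk
  induction l generalizing v with
  | nil => simp
  | cons w l ih =>
    rw [List.isChain_cons_cons] at h2
    have h3 := (List.nodup_cons.1 h1.of_cons).1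
    rw [List.toFinset_cons, prod_insert (by simpa using h3), TT, Function.update_self,
      prod_congr rfl fun x hx => by
        rw [Function.update_of_ne (ne_of_mem_of_not_mem (List.mem_toFinset.1 hx) h3)]]
    cases l with
    | nil => simp
    | cons y l =>
      rw [List.length_cons, Nat.add_sub_cancel, List.length_cons, pow_succ']
      refine mul_le_mul ?_ (ih h1.of_cons h2.2) (prod_nonneg fun _ _ => measureReal_nonneg)
        (div_nonneg (by simp) (by simp))
      simpa using site_two hk (nbrs_symm h2.1) (List.isChain_cons_cons.1 h2.2).1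
        (by rintro rfl; simp at h1)

lemma long_path {N : (Fin d → ℤ) → Finset (Fin d → ℤ)}
    (h : {y | Relation.ReflTransGen (IsOpenEdge N) 0 y}.Infinite) (n : ℕ) :
    ∃ l : List (Fin d → ℤ), l.length = n ∧ (0 :: l).Nodup ∧ List.IsChain (IsOpenEdge N) (0 :: l) := by
  let G : SimpleGraph (Fin d → ℤ) := ⟨IsOpenEdge N, ⟨fun _ _ h => ⟨nbrs_symm h.1, h.2.2, h.2.1⟩⟩,
    ⟨fun x h => by
      obtain ⟨a, h⟩ := nbrs_dir h.1
      have := congrFun h a.1
      simp only [dir, Pi.add_apply] at this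
      split_ifs at this <;> omega⟩⟩
  have h1 : ∀ x y (p : G.Walk x y) i, |y i - x i| ≤ p.length := fun x y p i => by
    induction p with
    | nil => simp
    | cons h p ih =>
      obtain ⟨a, rfl⟩ := nbrs_dir h.1
      simp only [dir, Pi.add_apply, SimpleGraph.Walk.length_cons, abs_le] at ih ⊢
      split_ifs at ih <;> omega
  obtain ⟨y, hy, h2⟩ := h.exists_notMem_finite (Set.finite_Icc (fun _ => -(n : ℤ)) fun _ => n)
  obtain ⟨p, hp⟩ := ((G.reachable_iff_reflTransGen 0 y).2 hy).exists_isPath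
  have h3 : n ≤ p.length := by
    by_contra h3
    refine h2 ⟨fun i => ?_, fun i => ?_⟩ <;>
    · have := h1 _ _ p i
      simp only [Pi.zero_apply, sub_zero, abs_le] at this ⊢
      omega
  have h4 := p.isChain_adj_support.take (n + 1)
  have h5 := hp.support_nodup.sublist (List.take_sublist (n + 1) _)
  rw [← p.cons_tail_support, List.take_succ_cons] at h4 h5
  exact ⟨_, by simp; omega, h5, h4⟩

/-- The path `l` from the origin is open. -/
def opn (l : List (Fin d → ℤ)) : Set ((Fin d → ℤ) → Finset (Fin d → ℤ)) :=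
  Set.pi ↑l.toFinset fun x => {s | TT 0 l x ⊆ s}

open Classical in
lemma theta_zero (hk : k ≤ 2 * d) {c : ℕ} (hc : ∀ a : Fin d × Bool, #(ext3 a) ≤ c)
    (h : c * ff d k 2 ^ 3 < 1) : theta k d = 0 := by
  have := law_prob hk
  have h0 : 0 ≤ ff d k 2 := div_nonneg (by simp) (by simp)
  rw [theta, ← measureReal_eq_zero_iff]
  have h1 := (tendsto_pow_atTop_nhds_zero_of_lt_one (by positivity) h).const_mul (2 * d : ℝ)
  rw [mul_zero] at h1
  refine le_antisymm (ge_of_tendsto' h1 fun m => ?_) measureReal_nonneg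
  let Q : Fin d × Bool → List (Fin d → ℤ) → Prop := fun a l => l.length = 3 * m ∧
    (0 :: (0 + dir a) :: l).Nodup ∧ List.IsChain (fun x y => y ∈ nbrs x) (0 :: (0 + dir a) :: l)
  have h2 : {N | {y | Relation.ReflTransGen (IsOpenEdge N) 0 y}.Infinite} ⊆ ⋃ a ∈ univ,
      ⋃ l ∈ (fm m (0 + dir a) a).filter (Q a), opn ((0 + dir a) :: l) := fun N hN => by
    obtain ⟨_ | ⟨w, l⟩, h1, h2, h3⟩ := long_path hN (3 * m + 1)
    · simp at h1
    have h4 : List.IsChain (fun x y => y ∈ nbrs x) (0 :: w :: l) := h3.imp fun _ _ h => h.1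
    obtain ⟨a, rfl⟩ := nbrs_dir (List.isChain_cons_cons.1 h4).1
    have h5 : l.length = 3 * m := by simpa using h1
    exact Set.mem_iUnion₂.2 ⟨a, mem_univ _, Set.mem_iUnion₂.2 ⟨l, mem_filter.2
      ⟨mem_fm m 0 a l h5 h2 h4.of_cons, h5, h2, h4⟩, fun x _ => TT_sub h3 x⟩⟩
  refine (measureReal_mono h2 (measure_ne_top _ _)).trans ((measureReal_biUnion_finset_le _ _).trans ?_)
  refine (sum_le_card_nsmul _ _ ((c * ff d k 2 ^ 3) ^ m) fun a _ =>
    (measureReal_biUnion_finset_le _ _).trans ((sum_le_card_nsmul _ _ (ff d k 2 ^ (3 * m))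
      fun l hl => ?_).trans ?_)).trans_eq (by simp [mul_comm])
  · obtain ⟨-, h1, h2, h3⟩ := mem_filter.1 hl
    rw [opn, law_pi hk, ← h1]
    exact TT_prob hk h2 h3
  · rw [nsmul_eq_mul, mul_pow, pow_mul]
    gcongr
    exact_mod_cast (card_filter_le _ _).trans (card_fm hc _ _ _)

theorem theta_small (h1 : 1 ≤ d) (h3 : d ≤ 3) (hk : k ≤ d) : theta k d = 0 := by
  interval_cases d
  · exact theta_zero (by omega) (c := 1) (by decide +kernel)
      (by interval_cases k <;> norm_num [ff, Nat.choose])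
  · exact theta_zero (by omega) (c := 25) (by decide +kernel)
      (by interval_cases k <;> norm_num [ff, Nat.choose])
  · exact theta_zero (by omega) (c := 121) (by decide +kernel)
      (by interval_cases k <;> norm_num [ff, Nat.choose])

end

end Pool.Agent.Work.MP_e5a0e3_pr.D4
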