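import Pool.Agent.Work.MP_e5a0e3_pr.D4.K

/-! Kernel runs, one after the other. -/

namespace Pool.Agent.Work.MP_e5a0e3_pr.D4

theorem chkC1 : chk 0 ∧ chk 1 ∧ chk 2 ∧ chk 3 ∧ chk 4 ∧ chk 5 ∧ chk 6 ∧ chk 7 ∧
    chk 8 ∧ chk 9 ∧ chk 10 ∧ chk 11 ∧ chk 12 ∧ chk 13 ∧ chk 14 ∧ chk 15 :=
  ⟨by decide +kernel, by decide +kernel, by decide +kernel, by decide +kernel,
    by decide +kernel, by decide +kernel, by decide +kernel, by decide +kernel,
    by decide +kernel, by decide +kernel, by decide +kernel, by decide +kernel,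
    by decide +kernel, by decide +kernel, by decide +kernel, by decide +kernel⟩

end Pool.Agent.Work.MP_e5a0e3_pr.D4
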