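import Pool.Agent.Work.MP_e5a0e3_pr.D4.K

/-! Kernel runs, one after the other. -/

namespace Pool.Agent.Work.MP_e5a0e3_pr.D4

theorem chkC2 : chk 16 ∧ chk 17 ∧ chk 18 ∧ chk 19 ∧ chk 20 ∧ chk 21 ∧ chk 22 ∧ chk 23 ∧
    chk 24 ∧ chk 25 ∧ chk 26 ∧ chk 27 ∧ chk 28 ∧ chk 29 ∧ chk 30 ∧ SS.map (sm (totU chunks.flatten)) = litU :=
  ⟨by decide +kernel, by decide +kernel, by decide +kernel, by decide +kernel,
    by decide +kernel, by decide +kernel, by decide +kernel, by decide +kernel,
    by decide +kernel, by decide +kernel, by decide +kernel, by decide +kernel,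
    by decide +kernel, by decide +kernel, by decide +kernel, by decide +kernel⟩

end Pool.Agent.Work.MP_e5a0e3_pr.D4
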