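import Pool.Agent.Work.MP_e5a0e3_pr.D4.Base
import Pool.Agent.Work.MP_e5a0e3_pr.D4.C1
import Pool.Agent.Work.MP_e5a0e3_pr.D4.C2

/-! The key inequality and percolation for `d = k = 4`. -/

namespace Pool.Agent.Work.MP_e5a0e3_pr.D4

open Finset

lemma FF_len {A : List (Fin 6)} (h : A ∈ FF) : A.length ≤ 5 := fam_len h

lemma hh_in {y : P} (h : n1 y ≤ 20) : hh y = ab Tn y / 2 ^ 20 := if_pos (by unfold n1 at h; omega)

lemma Hl_eq {y : P} (h : n1 y ≤ 10) : (Hl (ell y) : ℝ) = ab Tn y := by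
  have h1 : ∀ a < 21, ∀ b < 21, ∀ c < 21, n1 (Int.subNatNat a 10, Int.subNatNat b 10,
      Int.subNatNat c 10) ≤ 10 → Hl (ell3 (Int.subNatNat a 10) (Int.subNatNat b 10)
      (Int.subNatNat c 10)) = Tn (Int.subNatNat a 10).natAbs (Int.subNatNat b 10).natAbs
      (Int.subNatNat c 10).natAbs := by decide +kernel
  have h2 : ∀ x : ℤ, x.natAbs ≤ 10 → ∃ a < 21, Int.subNatNat a 10 = x := fun x hx =>
    ⟨(x + 10).toNat, by omega, by rw [Int.subNatNat_eq_coe]; omega⟩
  obtain ⟨x, y, z⟩ := y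
  have h3 := h
  simp only [n1] at h3
  obtain ⟨a, ha, rfl⟩ := h2 x (by omega)
  obtain ⟨b, hb, rfl⟩ := h2 y (by omega)
  obtain ⟨c, hc, rfl⟩ := h2 z (by omega)
  exact congrArg _ (h1 a ha b hb c hc h)

/-- The excess of the second walk. -/
noncomputable def DD (A : List (Fin 6)) (s : P) : ℝ :=
  ∑ B ∈ FF, ww B * ((Wc s A 0 B - 1) * hh (s + en A - en B))

lemma DD_gen (t : Fin 5) (A : List (Fin 6)) (s : P) : DD (A.map (sg t)) (gen t s) = DD A s := by
  rw [DD, sum_gen t]
  refine sum_congr rfl fun B _ => ?_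
  rw [← (gen_sy t).en, ← (gen_sy t).en', hh_gen, ← (gen_sy t).Wc s 0, gen_zero]

lemma DD_eq {A : List (Fin 6)} (hA : A.length ≤ 5) {s : P} (hs : n1 s ≤ 10) :
    27 ^ 6 * 2 ^ 20 * DD A s = sv (cfg A) (ell s) -
      sv ⟨0, [], fun _ => []⟩ ((ell s + ell (en A)) % 1723) := by
  rw [ell_add, sv_cfg hs hA, sv_zero, Nat.cast_sum, ← mul_sub, ← sum_sub_distrib, mul_assoc, DD, mul_sum]
  refine congrArg _ (sum_congr rfl fun B hB => ?_)
  rw [Nat.cast_mul]
  by_cases h : Wc s A 0 B = 1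
  · simp [h]
  · have h1 := (Wc_near hA (FF_len hB) h).2
    rw [Hl_eq h1, hh_in (by omega)]
    ring

lemma sm_eq {L : List (ℕ × List (Fin 6))} (hL : (L.map Prod.fst).sum ≤ 21539)
    {G : List (Fin 6) → ℕ → ℕ} (hG : ∀ A k, G A k ≤ 27 * bd 5) (x y z : ℕ) :
    (sm (pack 100 1723 fun k => (L.map fun a => a.1 * G a.2 k).sum) (x, y, z) : ℝ) =
      (L.map fun a => a.1 * symP (fun p => G a.2 (ell p)) (x, y, z)).sum := by
  have h : ∀ a b c, bits _ (Nat.mul 100 (ell3 a b c)) 100 = _ := fun a b c => lane_sum hL hG (a, b, c)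
  rw [← symP_list]
  simp only [sm, h, symP, sym, sgn, Nat.cast_add, Nat.cast_list_sum, List.map_map,
    Function.comp_def, Nat.cast_mul]

lemma map_idx {f : ℕ × ℕ × ℕ → ℕ} {m : List ℕ} (h : SS.map f = m) {s : ℕ × ℕ × ℕ} (hs : s ∈ SS) :
    f s = m.getD (SS.idxOf s) 0 := by
  rw [← h, List.getD_eq_getElem?_getD, List.getElem?_map, List.getElem?_idxOf hs]
  rfl

/-- The final inequality at a point. -/
def fq (x y z : ℕ) : Prop := (x, y, z) ∈ SS ∧
  (if z = 0 then 9 else 1) * (48 * 27 ^ 6 * hr (hr Tn 5) 5 x y z + ((List.range 31).map fun j =>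
    (lits.getD j []).getD (SS.idxOf (x, y, z)) 0).sum) ≤ 48 * 27 ^ 6 * 21539 ^ 2 * Tn x y z +
    (if z = 0 then 9 else 1) * litU.getD (SS.idxOf (x, y, z)) 0

noncomputable instance (x y z : ℕ) : Decidable (fq x y z) := inferInstanceAs (Decidable (_ ∧ _))

lemma fin_chk : ∀ z < 11, ∀ y < z + 1, ∀ x < y + 1, x + y + z ≤ 10 → fq x y z := by
  decide +kernel

lemma chk_all : ∀ j < 31, chk j := fun j hj => by
  have h1 := chkC1
  have h2 := chkC2
  interval_cases j <;> simp only [h1, h2]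

lemma EE_gen (t : Fin 5) (s : P) : ∑ A ∈ FF, ww A * DD A (gen t s) = ∑ A ∈ FF, ww A * DD A s := by
  simp only [sum_gen t fun A => DD A (gen t s), DD_gen]

lemma EE_eq {x y z : ℕ} (h : x + y + z ≤ 10) (hs : (x, y, z) ∈ SS) :
    48 * 27 ^ 6 * 2 ^ 20 * ∑ A ∈ FF, ww A * DD A (x, y, z) = (((List.range 31).map fun j =>
      (lits.getD j []).getD (SS.idxOf (x, y, z)) 0).sum : ℕ) - (litU.getD (SS.idxOf (x, y, z)) 0 : ℕ) := by
  have h1 : ∀ j < 31, ((chunks.getD j []).map Prod.fst).sum ≤ 21539 := by decide +kernel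
  have h2 : chunks = (List.range 31).map (chunks.getD · []) := by decide +kernel
  have h3 : ∀ a ∈ chunks.flatten, a.2.length ≤ 5 := by decide +kernel
  have h4 : (chunks.flatten.map fun a => a.1 * symP (fun p => sv (cfg a.2) (ell p)) (x, y, z)).sum =
      (((List.range 31).map fun j => (lits.getD j []).getD (SS.idxOf (x, y, z)) 0).sum : ℕ) := by
    rw [List.map_flatten, List.sum_flatten, h2, Nat.cast_list_sum]
    simp only [List.map_map]
    refine congrArg _ (List.map_congr_left fun j hj => ?_)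
    have hj := List.mem_range.1 hj
    rw [Function.comp, Function.comp, Function.comp, ← map_idx (chk_all j hj) hs, tot_eq,
      sm_eq (h1 j hj) (G := fun A k => sv (cfg A) k) fun _ _ => sd_le _ _ _ _]
  rw [← h4, ← map_idx chkC2.2.2.2.2.2.2.2.2.2.2.2.2.2.2.2 hs, totU_eq, sm_eq (by decide +kernel)
    (G := fun A k => sv ⟨0, [], fun _ => []⟩ ((k + ell (en A)) % 1723)) fun _ _ => sd_le _ _ _ _,
    mul_assoc 48, mul_comm 48, mul_assoc _ 48,
    ← symP_inv (f := fun s => ∑ A ∈ FF, ww A * DD A s) EE_gen, symP_sum,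
    red (Φ := fun A => symP (DD A) (x, y, z)) fun t l => by
      rw [← symP_gen t]; simp only [DD_gen], ← List.sum_map_mul_left, eq_sub_iff_add_eq,
    ← List.sum_map_add]
  refine congrArg _ (List.map_congr_left fun a ha => ?_)
  rw [symP_congr (f := fun p => sv (cfg a.2) (ell p)) (g := fun p => 27 ^ 6 * 2 ^ 20 * DD a.2 p +
    sv ⟨0, [], fun _ => []⟩ ((ell p + ell (en a.2)) % 1723)) fun p hp => by
      rw [DD_eq (h3 a ha) (hp.trans_le h), sub_add_cancel]]
  simp only [symP, sym, sgn]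
  ring

lemma key (s : P) : (if s = 0 then 9 else 1) * ∑ A ∈ FF, ∑ B ∈ FF,
    ww A * ww B * Wc s A 0 B * hh (s + en A - en B) ≤ 21539 ^ 2 * hh s := by
  have h0 : ∑ A ∈ FF, ∑ B ∈ FF, ww A * ww B * Wc s A 0 B * hh (s + en A - en B) =
      ∑ A ∈ FF, ww A * ∑ B ∈ FF, ww B * hh (s + en A - en B) + ∑ A ∈ FF, ww A * DD A s := by
    simp only [DD, mul_sum, ← sum_add_distrib]
    exact sum_congr rfl fun _ _ => sum_congr rfl fun _ _ => by ring
  rw [h0]
  rcases le_or_gt (n1 s) 10 with hs | hs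
  · have h1 : ∑ A ∈ FF, ww A * ∑ B ∈ FF, ww B * hh (s + en A - en B) =
        ab (hr (hr Tn 5) 5) s / 2 ^ 20 := by
      rw [← HR_ab, ← sum_end, sum_div]
      refine sum_congr rfl fun A hA => ?_
      rw [← HR_ab, ← sum_end', mul_div_assoc, sum_div]
      refine congrArg _ (sum_congr rfl fun B hB => ?_)
      have h2 := n1_add s (en A)
      have h3 := n1_sub (s + en A) (en B)
      have h4 := (n1_en A).trans (FF_len hA)
      have h5 := (n1_en B).trans (FF_len hB)
      rw [hh_in (by omega), mul_div_assoc]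
    rw [h1, hh_in (by omega)]
    clear h0 h1
    revert hs
    induction s using wlog_sorted with
    | h t x ih =>
      have h1 : ∀ (f : P → ℝ) (_ : ∀ y, f (gen t y) = f y) y, HR f 5 (gen t y) = HR f 5 y :=
        fun f hf y => by simp only [← sum_end, sum_gen t fun A => f (gen t y + en A),
          ← (gen_sy t).en, hf]
      rw [n1_gen, EE_gen, Tn_gen, ← HR_ab, ← HR_ab, h1 _ (h1 _ (Tn_gen t)), HR_ab, HR_ab]
      simpa only [← gen_zero t ▸ (gen_sy t).inj.eq_iff (a := x) (b := 0)] using ih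
    | h0 x y z h1 h2 =>
      intro hs
      have hs : x + y + z ≤ 10 := by simpa [n1] using hs
      obtain ⟨h3, h4⟩ := fin_chk z (by omega) y (by omega) x (by omega) hs
      have h5 := EE_eq hs h3
      rw [← Nat.cast_le (α := ℝ)] at h4
      have h6 : ((x, y, z) : P) = 0 ↔ z = 0 := by
        simp only [Prod.ext_iff, Prod.fst_zero, Prod.snd_zero]
        omega
      simp only [h6, ab, Int.natAbs_natCast]
      generalize List.sum (α := ℕ) _ = u at h4 h5
      split_ifs at h4 ⊢ <;> push_cast at h4 <;> linarith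
  · have h1 : ∀ A ∈ FF, DD A s = 0 := fun A hA => sum_eq_zero fun B hB => by
      rw [show Wc s A 0 B = 1 from
        by_contra fun h => by have := (Wc_near (FF_len hA) (FF_len hB) h).1; omega]
      simp
    have h2 : ∀ y, n1 (y - s) ≤ 5 → HR hh 5 y ≤ 21539 * hh y := fun y hy =>
      HR_one ▸ HR_le fun x hx => super x (by
        have h3 := n1_sub x (x - y)
        have h4 := n1_sub y (y - s)
        rw [sub_sub_cancel] at h3 h4
        omega)
    rw [if_neg (by rintro rfl; simp [n1] at hs), one_mul,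
      sum_eq_zero (s := FF) (f := fun A => ww A * DD A s) fun A hA => by rw [h1 A hA, mul_zero], add_zero]
    simp only [sum_end']
    refine (sum_le_sum fun A hA => mul_le_mul_of_nonneg_left (h2 _ (by
      simpa using (n1_en A).trans (FF_len hA))) (by positivity)).trans ?_
    simp only [mul_left_comm _ (21539 : ℝ), ← mul_sum, sum_end]
    linarith [h2 s (by simp [n1])]

theorem theta44 : 0 < theta 4 4 :=
  perc (fun _ hb => (fam_nodup hb (by simp)).1) sum_ww hh hh_one key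

end Pool.Agent.Work.MP_e5a0e3_pr.D4
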